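import Pool.Agent.H57.CC.Def
import Pool.Agent.H57.BRA.Def
import Pool.Agent.H77.PC3.CLx
import Pool.Agent.H89.BRG.Qd

/-!
# H57-CC-RCS: the number of homomorphisms to R with given data (helper89)
-/

set_option autoImplicit false

open scoped NumberField
open IsDedekindDomain Filter Topology
open scoped Classical

noncomputable section

namespace H57.CC

open H57.PC H57.LOW H63.MA H38.BB H38.BG H51.CUB H77.PT H77.PC3 H57.MP H57.BRA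

variable {K : Type} [Field K] [NumberField K] {p : ℕ} {ζ : K} {Ω : Type} [Field Ω]
  [Algebra K Ω] [IsAlgClosure K Ω] {m l w N k : ℕ} {P R : Type} [Group P] [Group R]

private theorem rc_xi {D : RD0 K p ζ} (c : CR p m N) (b : Fin m → Kˣ)
    (f : Fin N → Finset (Pl K)) (k : Fin m) :
    akR D c b f k = b k * H38.BG.xi D c.x f k := by
  unfold akR H38.BG.xi
  rfl

private theorem rc_t (hp : p.Prime) (hζ : IsPrimitiveRoot ζ p) {D : RD0 K p ζ} (L : LDs D Ω)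
    (c : CR p m N) (b : Fin m → Kˣ) (hb : BS2 D b ∅)
    (f : Fin N → Finset (Pl K)) (hdj : Dj f) (hS : ∀ i, ∀ v ∈ f i, v ∉ D.S0) (i : Fin N)
    (v : Pl K) (hv : v ∈ f i) :
    kuh p ζ Ω (akR D c b f) (L.t v) = Multiplicative.ofAdd (c.x i) := by
  apply Multiplicative.toAdd.injective
  funext k
  change kk p ζ (akR D c b f k) (L.t v) = c.x i k
  have ht : L.t v = (L.ld v (hS i v hv)).t := dif_pos (hS i v hv)
  rw [ht, ld_kk_t hp hζ (fun h => hS i v hv (D.above v h)) (D.pi_self v (hS i v hv))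
    (L.ld v (hS i v hv)), rc_xi, ord_mul, hb.2 k v (hS i v hv) (Finset.notMem_empty v), zero_add,
    xi_ord_mem hp D _ f hdj hS k hv]

private theorem rc_un (hp : p.Prime) (hζ : IsPrimitiveRoot ζ p) {D : RD0 K p ζ} (L : LDs D Ω)
    (c : CR p m N) (b : Fin m → Kˣ) (hb : BS2 D b ∅)
    (f : Fin N → Finset (Pl K)) (hS : ∀ i, ∀ v ∈ f i, v ∉ D.S0)
    (v : Pl K) (hv : v ∉ D.S0) (hf : ∀ i, v ∉ f i) (τ : Gal(Ω/K)) (hτ : τ ∈ inr L v) :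
    kuh p ζ Ω (akR D c b f) τ = 1 := by
  have : NeZero p := ⟨hp.ne_zero⟩
  rw [tm_z hp hζ L _ (kuh_ft hp hζ _) v hv (fun σ _ => kuh_pow _ σ) τ hτ]
  have h1 : kuh p ζ Ω (akR D c b f) (L.t v) = 1 := by
    apply Multiplicative.toAdd.injective
    funext k
    change kk p ζ (akR D c b f k) (L.t v) = 0
    have ht : L.t v = (L.ld v hv).t := dif_pos hv
    rw [ht, ld_kk_t hp hζ (fun h => hv (D.above v h)) (D.pi_self v hv)
      (L.ld v hv), rc_xi, ord_mul, hb.2 k v hv (Finset.notMem_empty v), zero_add,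
      xi_ord_not D _ f hS k hv hf, Int.cast_zero]
  rw [h1, one_pow]

private theorem rc_lift [NeZero p] [Finite R] (hp : p.Prime) (hp2 : MOne p K)
    (hζ : IsPrimitiveRoot ζ p) (hz : Z2 p K) {D : RD0 K p ζ} {L : LDs D Ω} (Q : DP K Ω)
    (Fr : FR L) (Dg : GP p m l w N P R) (b : Fin m → Kˣ) (hb : BS2 D b ∅)
    (f : Fin N → Finset (Pl K)) (hdj : Dj f) (hS : ∀ i, ∀ v ∈ f i, v ∉ D.S0)
    (ρ₁ : Gal(Ω/K) →* R) (h₁ : H38.ML.FT ρ₁)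
    (hl : ∀ v ∈ D.S0, ∀ σ ∈ dec (K := K) (Q.P v), ∀ j, kk p ζ (akR D Dg.cr b f j) σ =
      Multiplicative.toAdd (Dg.π (ρ₁ σ)) j)
    (hc : ∀ i, ∀ v ∈ f i, Dg.kV (fun j => D.LL v (akR D Dg.cr b f j)) (Dg.s i) = 0) :
    ∃ ρ₀ : Gal(Ω/K) →* R, H38.ML.FT ρ₀ ∧
      ∀ σ, Dg.π (ρ₀ σ) = kuh p ζ Ω (akR D Dg.cr b f) σ := by
  refine cx_lift (gx2 Dg) (kuh p ζ Ω (akR D Dg.cr b f)) (kuh_ft hp hζ _) fun k => ?_
  refine H89.BRG.brg1q hp hp2 hζ hz Q Fr (cx_coc (gx2 Dg) k) (kuh_ft hp hζ _)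
    (akR D Dg.cr b f) ?_ (fun v hv => ?_) (fun v hv τ _ => kuh_pow _ τ) (fun v hv => ?_)
  · refine ⟨fun _ => 0, ⟨⊥, inferInstance, fun _ _ _ => rfl⟩, fun σ hσ τ hτ => ?_⟩
    have h1 : kuh p ζ Ω (akR D Dg.cr b f) σ = 1 := by
      apply Multiplicative.toAdd.injective
      funext j
      exact hσ j
    change (0 : ZMod p) = 0 + 0 + (gx2 Dg).e k (kuh p ζ Ω (akR D Dg.cr b f) σ) _
    rw [h1, (cx_coc (gx2 Dg) k).l1, add_zero, add_zero]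
  · have hπ : ∀ σ ∈ dec (K := K) (Q.P v), kuh p ζ Ω (akR D Dg.cr b f) σ = Dg.π (ρ₁ σ) := by
      intro σ hσ
      apply Multiplicative.toAdd.injective
      funext j
      exact hl v hv σ hσ j
    refine ⟨fun σ => Dg.cv k (ρ₁ σ * ((gx2 Dg).s (Dg.π (ρ₁ σ)))⁻¹), ?_, fun σ hσ τ hτ => ?_⟩
    · exact glift_lev_comp2 ρ₁ ρ₁ (fun z => Dg.cv k (z.1 * ((gx2 Dg).s (Dg.π z.1))⁻¹))
        (ft_lev ρ₁ h₁) (ft_lev ρ₁ h₁)
    · have hs : ∀ x, Dg.π ((gx2 Dg).s x) = x := fun x => cx_s (gx2 Dg) x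
      have hz' : ∀ τ : Gal(Ω/K), Dg.π (ρ₁ τ * ((gx2 Dg).s (Dg.π (ρ₁ τ)))⁻¹) = 1 := by
        intro τ
        rw [map_mul, map_inv, hs, mul_inv_cancel]
      have hE : Dg.π ((gx2 Dg).E (Dg.π (ρ₁ σ)) (Dg.π (ρ₁ τ))) = 1 := cx_E (gx2 Dg) _ _
      have hEs := cx_Es (gx2 Dg) (Dg.π (ρ₁ σ)) (Dg.π (ρ₁ τ))
      have e3 : pb ((gx2 Dg).e k) (kuh p ζ Ω (akR D Dg.cr b f)) σ τ =
          Dg.cv k ((gx2 Dg).E (Dg.π (ρ₁ σ)) (Dg.π (ρ₁ τ))) := by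
        unfold pb
        rw [hπ σ hσ, hπ τ hτ]
        rfl
      have key : ρ₁ (σ * τ) * ((gx2 Dg).s (Dg.π (ρ₁ (σ * τ))))⁻¹ =
          (ρ₁ σ * ((gx2 Dg).s (Dg.π (ρ₁ σ)))⁻¹) * (ρ₁ τ * ((gx2 Dg).s (Dg.π (ρ₁ τ)))⁻¹) *
          (gx2 Dg).E (Dg.π (ρ₁ σ)) (Dg.π (ρ₁ τ)) := by
        have hc1 := Dg.vcen _ (hz' τ) ((gx2 Dg).s (Dg.π (ρ₁ σ)))
        have hs1 : (gx2 Dg).s (Dg.π (ρ₁ (σ * τ))) =
            ((gx2 Dg).E (Dg.π (ρ₁ σ)) (Dg.π (ρ₁ τ)))⁻¹ * ((gx2 Dg).s (Dg.π (ρ₁ σ)) *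
              (gx2 Dg).s (Dg.π (ρ₁ τ))) := by
          rw [hEs, map_mul, map_mul, inv_mul_cancel_left]
        have hc2 := Dg.vcen _ hE
        rw [hs1, map_mul]
        obtain ⟨A, hA⟩ : ∃ A, A = (gx2 Dg).s (Dg.π (ρ₁ σ)) := ⟨_, rfl⟩
        obtain ⟨B, hB⟩ : ∃ B, B = (gx2 Dg).s (Dg.π (ρ₁ τ)) := ⟨_, rfl⟩
        obtain ⟨C, hC⟩ : ∃ C, C = (gx2 Dg).E (Dg.π (ρ₁ σ)) (Dg.π (ρ₁ τ)) := ⟨_, rfl⟩
        rw [← hA, ← hB, ← hC]
        rw [← hA, ← hB] at hc1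
        rw [← hC] at hc2
        have hc3 : A⁻¹ * (ρ₁ τ * B⁻¹) = (ρ₁ τ * B⁻¹) * A⁻¹ := by
          have h5 : Commute (ρ₁ τ * B⁻¹) A := hc1
          exact h5.inv_right.eq.symm
        calc ρ₁ σ * ρ₁ τ * (C⁻¹ * (A * B))⁻¹ = ρ₁ σ * ((ρ₁ τ * B⁻¹) * A⁻¹) * C := by
              group
          _ = ρ₁ σ * (A⁻¹ * (ρ₁ τ * B⁻¹)) * C := by rw [hc3]
          _ = _ := by group
      simp only
      rw [e3, key, Dg.vadd k _ _ (by rw [map_mul, hz' σ, hz' τ, one_mul]) hE,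
        Dg.vadd k _ _ (hz' σ) (hz' τ)]
  · by_cases hvf : ∃ i, v ∈ f i
    · obtain ⟨i, hi⟩ := hvf
      have h5 := cx_iv (gx2 Dg) k
        ((gx2 Dg).s (kuh p ζ Ω (akR D Dg.cr b f) (Fr.F v)))
        ((gx2 Dg).s (kuh p ζ Ω (akR D Dg.cr b f) (L.t v))) (mul_comm _ _)
      rw [cx_s, cx_s] at h5
      rw [h5]
      change Dg.cv k _ = 0
      have hs : ∀ x, Dg.π ((gx2 Dg).s x) = x := fun x => cx_s (gx2 Dg) x
      rw [Dg.hk, hs, hs, rc_t hp hζ L Dg.cr b hb f hdj hS i v hi, toAdd_ofAdd]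
      have h6 : Multiplicative.toAdd (kuh p ζ Ω (akR D Dg.cr b f) (Fr.F v)) =
          fun j => D.LL v (akR D Dg.cr b f j) := by
        funext j
        exact Fr.kf v hv _
      rw [h6]
      exact congrFun (hc i v hi) k
    · rw [rc_un hp hζ L Dg.cr b hb f hS v hv (fun i hi => hvf ⟨i, hi⟩) _ (H63.BU.uinr_t L v)]
      unfold iv
      rw [(cx_coc (gx2 Dg) k).l1, (cx_coc (gx2 Dg) k).r1, sub_zero]

/-- the values at the typed primes -/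
private def rcF {D : RD0 K p ζ} (L : LDs D Ω) (f : Fin N → Finset (Pl K)) (ρ : Gal(Ω/K) →* R) :
    (i : Fin N) → (↥(f i) → R) := fun i v => ρ (L.t v.1)

private theorem rc_fib [NeZero p] [Finite R] (hp : p.Prime) (hζ : IsPrimitiveRoot ζ p)
    {D : RD0 K p ζ} (L : LDs D Ω) (Dg : GP p m l w N P R) (b : Fin m → Kˣ)
    (f : Fin N → Finset (Pl K)) (hS : ∀ i, ∀ v ∈ f i, v ∉ D.S0) (ψ : Gal(Ω/K) →* R)
    (hψ : ψ ∈ RH L Dg b ∅ (fun _ _ => 1) f) :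
    ((RHf L Dg b ∅ (fun _ _ => 1) f).filter fun ρ => rcF L f ρ = rcF L f ψ).card =
      rhn L Dg := by
  unfold rhn
  symm
  refine Finset.card_bij (fun χ hχ => tw Dg χ ψ ((rhn_mem hp hζ Dg χ).1 hχ).2.1) ?_ ?_ ?_
  · intro χ hχ
    obtain ⟨c0, c1, c2⟩ := (rhn_mem hp hζ Dg χ).1 hχ
    rw [Finset.mem_filter, mem_RHf' hp hζ]
    refine ⟨rh_tw L Dg _ ∅ _ f ψ hψ χ c1 c0 (fun i v hv => ⟨1, ?_⟩)
      (fun v hv => absurd hv (Finset.notMem_empty v)) (fun v hv _ _ => c2 v hv), ?_⟩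
    · rw [c2 v (hS i v hv) _ (H63.BU.uinr_t L v)]
      group
    · funext i v
      change tw Dg χ ψ c1 (L.t v.1) = ψ (L.t v.1)
      rw [tw_apply, c2 v.1 (hS i v.1 v.2) _ (H63.BU.uinr_t L v.1), one_mul]
  · intro χ hχ χ' hχ' h
    apply MonoidHom.ext
    intro σ
    have h1 := DFunLike.congr_fun h σ
    rw [tw_apply, tw_apply] at h1
    exact mul_right_cancel h1
  · intro ρ hρ
    rw [Finset.mem_filter, mem_RHf' hp hζ] at hρ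
    obtain ⟨hρ, hρe⟩ := hρ
    obtain ⟨χ, hχ, h1, h2, h3⟩ := rh_same hp hζ L Dg b ∅ _ f ψ ρ hψ hρ
      (fun i v hv => congrFun (congrFun hρe i) ⟨v, hv⟩)
    exact ⟨χ, (rhn_mem hp hζ Dg χ).2 ⟨h2, hχ, h3⟩, h1.symm⟩

/-- the possible values -/
private theorem rc_T [Finite R] (Dg : GP p m l w N P R) (f : Fin N → Finset (Pl K)) :
    ∃ T : Finset ((i : Fin N) → (↥(f i) → R)),
      (∀ e, e ∈ T ↔ ∀ i (v : ↥(f i)), IsConj (e i v) (Dg.q (Dg.g i))) ∧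
      T.card = ∏ i, Nat.card {r : R // IsConj r (Dg.q (Dg.g i))} ^ (f i).card := by
  have hfin : Fintype R := Fintype.ofFinite R
  refine ⟨Fintype.piFinset (fun i => Fintype.piFinset
      (fun _ : ↥(f i) => Finset.univ.filter fun h : R => IsConj h (Dg.q (Dg.g i)))),
    fun e => ?_, ?_⟩
  · rw [Fintype.mem_piFinset]
    simp only [Fintype.mem_piFinset, Finset.mem_filter, Finset.mem_univ, true_and]
  · rw [Fintype.card_piFinset]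
    refine Finset.prod_congr rfl fun i _ => ?_
    rw [Fintype.card_piFinset, Finset.prod_const, Finset.card_univ, Fintype.card_coe,
      Nat.card_eq_fintype_card, Fintype.card_subtype]

/-- the upper bound -/
theorem rcs_le [NeZero p] [Finite P] [Finite R] (hp : p.Prime) (hp2 : MOne p K)
    (hζ : IsPrimitiveRoot ζ p) (hz : Z2 p K) {D : RD0 K p ζ} {L : LDs D Ω} (Fr : FR L)
    (Dg : GP p m l w N P R) (b : Fin m → Kˣ) (hb : BS2 D b ∅) (f : Fin N → Finset (Pl K))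
    (hf : Dj f) (hG : ∀ i, ∀ v ∈ f i, D.Gd v) :
    (RHf L Dg b ∅ (fun _ _ => 1) f).card ≤
      rhn L Dg * ∏ i, Nat.card {r : R // IsConj r (Dg.q (Dg.g i))} ^ (f i).card := by
  have hS : ∀ i, ∀ v ∈ f i, v ∉ D.S0 := fun i v hv => (hG i v hv).1
  obtain ⟨T, hTm, hTc⟩ := rc_T Dg f
  have hmaps : ∀ ρ ∈ RHf L Dg b ∅ (fun _ _ => 1) f, rcF L f ρ ∈ T := by
    intro ρ hρ
    rw [mem_RHf' hp hζ] at hρ
    rw [hTm]
    exact fun i v => (hρ.2.2.1 i v.1 v.2).1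
  rw [Finset.card_eq_sum_card_fiberwise (fun ρ hρ => Finset.mem_coe.2 (hmaps ρ
    (Finset.mem_coe.1 hρ))), ← hTc, mul_comm, ← smul_eq_mul, ← Finset.sum_const]
  refine Finset.sum_le_sum fun e he => ?_
  rcases ((RHf L Dg b ∅ (fun _ _ => 1) f).filter fun ρ => rcF L f ρ = e).eq_empty_or_nonempty
    with h0 | ⟨ψ, hψ⟩
  · rw [h0, Finset.card_empty]
    exact Nat.zero_le _
  · rw [Finset.mem_filter, mem_RHf' hp hζ] at hψ
    have h1 := rc_fib hp hζ L Dg b f hS ψ hψ.1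
    rw [hψ.2] at h1
    exact h1.le

/-- the number if the level one data have the local behaviour of `ρ₁` at `S0` -/
theorem rcs_eq [NeZero p] [Finite P] [Finite R] (hp : p.Prime) (hp2 : MOne p K)
    (hζ : IsPrimitiveRoot ζ p) (hz : Z2 p K) {D : RD0 K p ζ} {L : LDs D Ω} (Q : DP K Ω)
    (Fr : FR L) (Dg : GP p m l w N P R) (b : Fin m → Kˣ) (hb : BS2 D b ∅)
    (f : Fin N → Finset (Pl K)) (hf : Dj f) (hG : ∀ i, ∀ v ∈ f i, D.Gd v)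
    (ρ₁ : Gal(Ω/K) →* R) (h₁ : H38.ML.FT ρ₁)
    (hl : ∀ v ∈ D.S0, ∀ σ ∈ dec (K := K) (Q.P v), ∀ j, kk p ζ (akR D Dg.cr b f j) σ =
      Multiplicative.toAdd (Dg.π (ρ₁ σ)) j)
    (hk : ∀ i, ∀ v ∈ f i, Dg.kV (fun j => D.LL v (akR D Dg.cr b f j)) (Dg.s i) = 0) :
    (RHf L Dg b ∅ (fun _ _ => 1) f).card =
      rhn L Dg * ∏ i, Nat.card {r : R // IsConj r (Dg.q (Dg.g i))} ^ (f i).card := by
  have hS : ∀ i, ∀ v ∈ f i, v ∉ D.S0 := fun i v hv => (hG i v hv).1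
  obtain ⟨ρ₀, k0, k1⟩ := rc_lift hp hp2 hζ hz Q Fr Dg b hb f hf hS ρ₁ h₁ hl hk
  obtain ⟨x, hx⟩ : ∃ x : Finset (Pl K), x = Finset.univ.biUnion f := ⟨_, rfl⟩
  have hxm : ∀ v, v ∈ x ↔ ∃ i, v ∈ f i := by
    intro v
    rw [hx, Finset.mem_biUnion]
    simp
  obtain ⟨T, hTm, hTc⟩ := rc_T Dg f
  have hex : ∀ e ∈ T, ∃ ψ : Gal(Ω/K) →* R,
      ψ ∈ RH L Dg b ∅ (fun _ _ => 1) f ∧ rcF L f ψ = e := by
    intro e he
    obtain ⟨y, hy⟩ := fam_fun f hf e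
    obtain ⟨ψ, a1, a2, a3, a4, a5⟩ := cx_adj (gx2 Dg) hp hζ L
      (kuh p ζ Ω (akR D Dg.cr b f)) ρ₀ k0 k1 x
      (fun v hv => by
        obtain ⟨i, hi⟩ := (hxm v).1 hv
        exact hS i v hi)
      (fun v hv hvx τ hτ => rc_un hp hζ L Dg.cr b hb f hS v hv
        (fun i hi => hvx ((hxm v).2 ⟨i, hi⟩)) τ hτ)
      (fun v hv τ hτ z hz' => by
        obtain ⟨i, hi⟩ := (hxm v).1 hv
        refine pow_lift2 Dg i z (kk p ζ (D.pi v) τ).val ?_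
        have h3 := tm_z hp hζ L _ (kuh_ft hp hζ (akR D Dg.cr b f)) v (hS i v hi)
          (fun σ _ => kuh_pow _ σ) τ hτ
        rw [rc_t hp hζ L Dg.cr b hb f hf hS i v hi] at h3
        exact hz'.trans h3)
      y (fun v hv => by
        obtain ⟨i, hi⟩ := (hxm v).1 hv
        obtain ⟨c, hc'⟩ := isConj_iff.1 ((hTm e).1 he i ⟨v, hi⟩)
        rw [hy i v hi, rc_t hp hζ L Dg.cr b hb f hf hS i v hi]
        have h3 : Dg.π (e i ⟨v, hi⟩) = Dg.π (Dg.q (Dg.g i)) := by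
          rw [← hc', map_mul, map_mul, map_inv, mul_comm (Dg.π c), mul_inv_cancel_right]
        exact h3)
    have a3' : ∀ i (v : ↥(f i)), ψ (L.t v.1) = e i v := fun i v => by
      rw [a3 v.1 ((hxm v.1).2 ⟨i, v.2⟩), hy i v.1 v.2]
    refine ⟨ψ, ⟨a1, fun σ k => ?_, fun i v hv => ⟨?_, a4 v ((hxm v).2 ⟨i, hv⟩)⟩,
      fun v hv => absurd hv (Finset.notMem_empty v), fun v hv _ hvf τ hτ => ?_⟩, ?_⟩
    · have h3 := a2 σ
      change Dg.π (ψ σ) = _ at h3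
      rw [h3]
      rfl
    · rw [a3' i ⟨v, hv⟩]
      exact (hTm e).1 he i ⟨v, hv⟩
    · exact a5 v hv (fun hvx => by
        obtain ⟨i, hi⟩ := (hxm v).1 hvx
        exact hvf i hi) τ hτ
    · funext i v
      exact a3' i v
  have hmaps : ∀ ρ ∈ RHf L Dg b ∅ (fun _ _ => 1) f, rcF L f ρ ∈ T := by
    intro ρ hρ
    rw [mem_RHf' hp hζ] at hρ
    rw [hTm]
    exact fun i v => (hρ.2.2.1 i v.1 v.2).1
  rw [Finset.card_eq_sum_card_fiberwise (fun ρ hρ => Finset.mem_coe.2 (hmaps ρ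
    (Finset.mem_coe.1 hρ))), ← hTc, mul_comm, ← smul_eq_mul, ← Finset.sum_const]
  refine Finset.sum_congr rfl fun e he => ?_
  obtain ⟨ψ, hψ, hψe⟩ := hex e he
  have h1 := rc_fib hp hζ L Dg b f hS ψ hψ
  rw [hψe] at h1
  exact h1

end H57.CC
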