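import Pool.Agent.H57.CC.Def
import Pool.Agent.H57.BRA.Def
import Pool.Agent.H77.PC3.CLx
import Pool.Agent.H63.MC.CHa
import Pool.Agent.H63.MA.Den
import Pool.Agent.H57.LOW.Epc

/-!
# H57-CC-VS: virtual primes (helper89)
-/

set_option autoImplicit false

open scoped NumberField
open IsDedekindDomain Filter Topology
open scoped Classical

noncomputable section

namespace H57.CC

open H57.PC H57.LOW H63.MA H38.BB H38.BG H51.CUB H77.PT H77.PC3 H57.MP H57.BRA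

variable {K : Type} [Field K] [NumberField K] {p : ℕ} {ζ : K} {Ω : Type} [Field Ω]
  [Algebra K Ω] [IsAlgClosure K Ω] {m l w N k : ℕ} {P R : Type} [Group P] [Group R]

theorem vs_kc (hp : p.Prime) (hζ : IsPrimitiveRoot ζ p) (f : Gal(Ω/K) → ZMod p)
    (hf : ∀ σ τ, f (σ * τ) = f σ + f τ) (hl : ∃ E : IntermediateField K Ω,
      FiniteDimensional K E ∧ ∀ u ∈ E.fixingSubgroup, f u = 0) :
    ∃ a : Kˣ, ∀ σ : Gal(Ω/K), kk p ζ a σ = f σ := by
  obtain ⟨χ, hχ⟩ : ∃ χ : Gal(Ω/K) →* Multiplicative (ZMod p),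
      ∀ σ, χ σ = Multiplicative.ofAdd (f σ) :=
    ⟨MonoidHom.mk' (fun σ => Multiplicative.ofAdd (f σ)) fun σ τ => by
      simp only [hf, ofAdd_add], fun σ => rfl⟩
  obtain ⟨E, hE, hE2⟩ := hl
  obtain ⟨a, ha⟩ := kc_all hp hζ χ ⟨E, hE, fun u hu => by
    rw [MonoidHom.mem_ker, hχ, hE2 u hu]
    rfl⟩
  refine ⟨a, fun σ => ?_⟩
  unfold kk
  rw [← ha, hχ]
  rfl

/-- existence of virtual primes -/
theorem vs_ex (hp : p.Prime) (hp2 : MOne p K) (hζ : IsPrimitiveRoot ζ p) (D : RD0 K p ζ)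
    (L : LDs D Ω) (Q : DP K Ω) (R : Type) [Group R] (l : ℕ) :
    ∃ (k : ℕ) (σ : Fin k → Gal(Ω/K)), ∀ (r : Fin k → R) (η : Fin k → Fin l → ZMod p),
      VP.Ok (⟨σ, r, η⟩ : VP K Ω p l k R) D Q := by
  classical
  have hp0 : NeZero p := ⟨hp.ne_zero⟩
  obtain ⟨S, hS1, hS2⟩ := hw_types (W := Multiplicative (ZMod p)) hp hp2 hζ D L Q (by
    intro w
    apply Multiplicative.toAdd.injective
    rw [toAdd_pow, toAdd_one, nsmul_eq_mul, ZMod.natCast_self, zero_mul])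
  obtain ⟨T, hT⟩ : ∃ T : Finset (Gal(Ω/K) →* Multiplicative (ZMod p)), ∀ χ, χ ∈ T ↔ χ ∈ S ∧
      ∃ σ, (∃ v ∈ D.S0, σ ∈ dec (K := K) (Q.P v)) ∧ χ σ ≠ 1 :=
    ⟨S.filter fun χ => ∃ σ, (∃ v ∈ D.S0, σ ∈ dec (K := K) (Q.P v)) ∧ χ σ ≠ 1,
      fun χ => Finset.mem_filter⟩
  have h1 : ∀ j : Fin T.card, ∃ σ : Gal(Ω/K), (∃ v ∈ D.S0, σ ∈ dec (K := K) (Q.P v)) ∧
      (T.equivFin.symm j : Gal(Ω/K) →* Multiplicative (ZMod p)) σ ≠ 1 := fun j =>
    ((hT _).1 (T.equivFin.symm j).2).2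
  choose σ hσ1 hσ2 using h1
  refine ⟨T.card, σ, fun r η => ⟨hσ1, fun c hc v hv τ hτ => ?_⟩⟩
  by_contra hne
  obtain ⟨χ, hχS, hχ⟩ := hS2 (kc p ζ Ω c) (kc_is hp hζ c).1
  have h2 : χ τ ≠ 1 := by
    rw [← hχ v hv τ hτ]
    intro h
    apply hne
    unfold kk
    rw [h]
    rfl
  have h3 : χ ∈ T := (hT χ).2 ⟨hχS, τ, ⟨v, hv, hτ⟩, h2⟩
  have h4 := hσ2 (T.equivFin ⟨χ, h3⟩)
  rw [Equiv.symm_apply_apply] at h4
  obtain ⟨v', hv', hσ'⟩ := hσ1 (T.equivFin ⟨χ, h3⟩)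
  apply h4
  rw [← hχ v' hv' _ hσ']
  apply Multiplicative.toAdd.injective
  exact hc _

/-- the same level one data at `S0` -/
theorem vs_one (hp : p.Prime) (hp2 : MOne p K) (hζ : IsPrimitiveRoot ζ p) {D : RD0 K p ζ}
    {Q : DP K Ω} (Dg : GP p m l w N P R) (X : VP K Ω p l k R) (hX : X.Ok D Q)
    (ρ ρ₁ : Gal(Ω/K) →* R) (h : H38.ML.FT ρ) (h₁ : H38.ML.FT ρ₁) :
    (∀ j, Dg.π (ρ (X.σ j)) = Dg.π (ρ₁ (X.σ j))) ↔
      ∀ v ∈ D.S0, ∀ σ ∈ dec (K := K) (Q.P v), Dg.π (ρ σ) = Dg.π (ρ₁ σ) := by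
  constructor
  · intro h0 v hv σ hσ
    apply Multiplicative.toAdd.injective
    funext c
    obtain ⟨E, hE, hE2⟩ := h
    obtain ⟨E', hE', hE2'⟩ := h₁
    obtain ⟨a, ha⟩ := vs_kc hp hζ (fun σ => Multiplicative.toAdd (Dg.π (ρ σ)) c -
      Multiplicative.toAdd (Dg.π (ρ₁ σ)) c) (fun σ τ => by
        simp only [map_mul, toAdd_mul, Pi.add_apply]
        ring) ⟨E ⊔ E', IntermediateField.finiteDimensional_sup _ _, fun u hu => by
        have h1 : ρ u = 1 := MonoidHom.mem_ker.1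
          (hE2 (IntermediateField.fixingSubgroup_antitone le_sup_left hu))
        have h2 : ρ₁ u = 1 := MonoidHom.mem_ker.1
          (hE2' (IntermediateField.fixingSubgroup_antitone le_sup_right hu))
        rw [h1, h2, sub_self]⟩
    have h3 := hX.det a (fun j => by
      rw [ha, h0 j, sub_self]) v hv σ hσ
    rw [ha] at h3
    exact sub_eq_zero.1 h3
  · intro h0 j
    obtain ⟨v, hv, hσ⟩ := hX.mem j
    exact h0 v hv _ hσ

/-- the quotient of two homomorphisms with the same level one data at `S0` -/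
theorem vs_chi (hp : p.Prime) (hζ : IsPrimitiveRoot ζ p) {D : RD0 K p ζ}
    {Q : DP K Ω} (Dg : GP p m l w N P R) (ρ ρ₁ : Gal(Ω/K) →* R) (h : H38.ML.FT ρ)
    (h₁ : H38.ML.FT ρ₁)
    (h0 : ∀ v ∈ D.S0, ∀ σ ∈ dec (K := K) (Q.P v), Dg.π (ρ σ) = Dg.π (ρ₁ σ)) (c : Fin l) :
    ∃ a : Kˣ, ∀ v ∈ D.S0, ∀ σ ∈ dec (K := K) (Q.P v),
      kk p ζ a σ = Dg.cv c (ρ σ * (ρ₁ σ)⁻¹) := by
  have hπ : ∀ v ∈ D.S0, ∀ σ ∈ dec (K := K) (Q.P v), Dg.π (ρ σ * (ρ₁ σ)⁻¹) = 1 := by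
    intro v hv σ hσ
    rw [map_mul, map_inv, h0 v hv σ hσ, mul_inv_cancel]
  have h1 : ∀ v : Pl K, ∃ δ : dec (K := K) (Q.P v) →* Multiplicative (ZMod p), v ∈ D.S0 →
      ∀ u : dec (K := K) (Q.P v), δ u =
        Multiplicative.ofAdd (Dg.cv c (ρ (u : Gal(Ω/K)) * (ρ₁ (u : Gal(Ω/K)))⁻¹)) := by
    intro v
    by_cases hv : v ∈ D.S0
    · refine ⟨MonoidHom.mk' (fun u =>
        Multiplicative.ofAdd (Dg.cv c (ρ (u : Gal(Ω/K)) * (ρ₁ (u : Gal(Ω/K)))⁻¹))) ?_,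
        fun _ u => rfl⟩
      intro a b
      have ha := hπ v hv a a.2
      have hb := hπ v hv b b.2
      have h2 : ρ ((a * b : dec (K := K) (Q.P v)) : Gal(Ω/K)) *
          (ρ₁ ((a * b : dec (K := K) (Q.P v)) : Gal(Ω/K)))⁻¹ =
          (ρ (a : Gal(Ω/K)) * (ρ₁ (a : Gal(Ω/K)))⁻¹) *
          (ρ (b : Gal(Ω/K)) * (ρ₁ (b : Gal(Ω/K)))⁻¹) := by
        rw [Subgroup.coe_mul, map_mul, map_mul, mul_inv_rev]
        have h3 := Dg.vcen _ hb (ρ₁ (a : Gal(Ω/K)))⁻¹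
        calc ρ (a : Gal(Ω/K)) * ρ (b : Gal(Ω/K)) *
              ((ρ₁ (b : Gal(Ω/K)))⁻¹ * (ρ₁ (a : Gal(Ω/K)))⁻¹)
            = ρ (a : Gal(Ω/K)) * ((ρ (b : Gal(Ω/K)) * (ρ₁ (b : Gal(Ω/K)))⁻¹) *
              (ρ₁ (a : Gal(Ω/K)))⁻¹) := by simp only [mul_assoc]
          _ = ρ (a : Gal(Ω/K)) * ((ρ₁ (a : Gal(Ω/K)))⁻¹ *
              (ρ (b : Gal(Ω/K)) * (ρ₁ (b : Gal(Ω/K)))⁻¹)) := by rw [h3]
          _ = _ := by simp only [mul_assoc]
      rw [h2, Dg.vadd c _ _ ha hb, ofAdd_add]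
    · exact ⟨1, fun h => absurd h hv⟩
  choose δ hδ using h1
  obtain ⟨E, hE, hE2⟩ := h
  obtain ⟨E', hE', hE2'⟩ := h₁
  obtain ⟨a, ha⟩ := lock hp hζ D.S0 Q δ (fun v hv =>
    ⟨E ⊔ E', IntermediateField.finiteDimensional_sup _ _, fun u hu => by
      have h1 : ρ (u : Gal(Ω/K)) = 1 := MonoidHom.mem_ker.1
        (hE2 (IntermediateField.fixingSubgroup_antitone le_sup_left hu))
      have h2 : ρ₁ (u : Gal(Ω/K)) = 1 := MonoidHom.mem_ker.1
        (hE2' (IntermediateField.fixingSubgroup_antitone le_sup_right hu))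
      rw [hδ v hv, h1, h2, inv_one, mul_one, cv_one]
      rfl⟩)
  refine ⟨a, fun v hv σ hσ => ?_⟩
  have h2 := ha v hv ⟨σ, hσ⟩
  rw [hδ v hv] at h2
  exact h2

/-- virtual primes detect equality at `S0` -/
theorem vs_teq [Finite R] (hp : p.Prime) (hp2 : MOne p K) (hζ : IsPrimitiveRoot ζ p)
    {D : RD0 K p ζ} (L : LDs D Ω) {Q : DP K Ω} (Dg : GP p m l w N P R) (X : VP K Ω p l k R)
    (hX : X.Ok D Q) (ρ ρ₁ : Gal(Ω/K) →* R) (h : H38.ML.FT ρ) (h₁ : H38.ML.FT ρ₁) :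
    Teq D.S0 Q ρ ρ₁ ↔ ∀ j, ρ (X.σ j) = ρ₁ (X.σ j) := by
  constructor
  · intro h0 j
    obtain ⟨v, hv, hσ⟩ := hX.mem j
    exact h0 v hv _ hσ
  · intro h0
    have h1 := (vs_one hp hp2 hζ Dg X hX ρ ρ₁ h h₁).1 fun j => by rw [h0 j]
    intro v hv σ hσ
    have h2 : ρ σ * (ρ₁ σ)⁻¹ = 1 := by
      refine Dg.vinj _ (by rw [map_mul, map_inv, h1 v hv σ hσ, mul_inv_cancel]) fun c => ?_
      obtain ⟨a, ha⟩ := vs_chi hp hζ Dg ρ ρ₁ h h₁ h1 c
      rw [← ha v hv σ hσ]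
      refine hX.det a (fun j => ?_) v hv σ hσ
      obtain ⟨v', hv', hσ'⟩ := hX.mem j
      rw [ha v' hv' _ hσ', h0 j, mul_inv_cancel, cv_one]
    exact mul_inv_eq_one.1 h2

private theorem vs_epsum {I : Type} (hp : p.Prime) (s : Finset I) (f : I → ZMod p) :
    ep p (∑ i ∈ s, f i) = ∏ i ∈ s, ep p (f i) := by
  induction s using Finset.induction_on with
  | empty => rw [Finset.sum_empty, Finset.prod_empty, ep_zero]
  | insert j s hj ih => rw [Finset.sum_insert hj, Finset.prod_insert hj, ep_add hp, ih]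

/-- Fourier expansion of `Teq` -/
theorem vs_fou [NeZero p] [Finite R] (hp : p.Prime) (hp2 : MOne p K) (hζ : IsPrimitiveRoot ζ p)
    {D : RD0 K p ζ} (L : LDs D Ω) {Q : DP K Ω} (Dg : GP p m l w N P R) (X : VP K Ω p l k R)
    (hX : X.Ok D Q) (ρ ρ₁ : Gal(Ω/K) →* R) (h : H38.ML.FT ρ) (h₁ : H38.ML.FT ρ₁)
    (hr : ∀ j, X.r j = ρ₁ (X.σ j)) :
    (if Teq D.S0 Q ρ ρ₁ then (1 : ℂ) else 0) = ((p : ℂ) ^ (l * k))⁻¹ *
      ∑ η : Fin k → Fin l → ZMod p, (X.wi η).ph Dg ρ := by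
  have hp0 : (p : ℂ) ≠ 0 := Nat.cast_ne_zero.2 hp.ne_zero
  by_cases h0 : ∀ j, Dg.π (ρ (X.σ j)) = Dg.π (X.r j)
  · obtain ⟨x, hx⟩ : ∃ x : Fin k → Fin l → ZMod p, x = fun j c =>
        Dg.cv c (ρ (X.σ j) * (X.r j)⁻¹) := ⟨_, rfl⟩
    have h1 : ∀ η : Fin k → Fin l → ZMod p, (X.wi η).ph Dg ρ =
        ∏ j, ep p (∑ i, η j i * x j i) := by
      intro η
      unfold VP.ph VP.wi
      rw [if_pos h0, vs_epsum hp]
      rw [hx]
      rfl
    have h2 : Teq D.S0 Q ρ ρ₁ ↔ ∀ j, ∀ i, x j i = 0 := by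
      rw [vs_teq hp hp2 hζ L Dg X hX ρ ρ₁ h h₁]
      constructor
      · intro h3 j i
        rw [hx]
        simp only
        rw [hr, h3 j, mul_inv_cancel, cv_one]
      · intro h3 j
        rw [← hr]
        apply mul_inv_eq_one.1
        refine Dg.vinj _ (by rw [map_mul, map_inv, h0 j, mul_inv_cancel]) fun c => ?_
        have h4 := h3 j c
        rw [hx] at h4
        exact h4
    rw [Finset.sum_congr rfl fun η _ => h1 η]
    have h3 := Finset.prod_univ_sum (fun _ : Fin k => (Finset.univ : Finset (Fin l → ZMod p)))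
      (fun j a => ep p (∑ i, a i * x j i))
    rw [Fintype.piFinset_univ] at h3
    rw [← h3, Finset.prod_congr rfl fun j _ => den_ep_sum hp (x j)]
    by_cases h4 : Teq D.S0 Q ρ ρ₁
    · rw [if_pos h4, Finset.prod_congr rfl fun j _ => if_pos (h2.1 h4 j), Finset.prod_const,
        Finset.card_univ, Fintype.card_fin, ← pow_mul, inv_mul_cancel₀ (pow_ne_zero _ hp0)]
    · rw [if_neg h4]
      have h5 : ∃ j, ¬ ∀ i, x j i = 0 := by
        by_contra h6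
        push Not at h6
        exact h4 (h2.2 h6)
      obtain ⟨j, hj⟩ := h5
      rw [Finset.prod_eq_zero (Finset.mem_univ j) (if_neg hj), mul_zero]
  · have h1 : ¬ Teq D.S0 Q ρ ρ₁ := by
      intro h2
      apply h0
      intro j
      rw [hr, (vs_teq hp hp2 hζ L Dg X hX ρ ρ₁ h h₁).1 h2 j]
    have h3 : ∀ η : Fin k → Fin l → ZMod p, (X.wi η).ph Dg ρ = 0 := by
      intro η
      unfold VP.ph VP.wi
      rw [if_neg h0]
    rw [if_neg h1, Finset.sum_eq_zero fun η _ => h3 η, mul_zero]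

/-- trivial functionals -/
theorem vs_tr [NeZero p] [Finite R] (hp : p.Prime) (hp2 : MOne p K) (hζ : IsPrimitiveRoot ζ p)
    {D : RD0 K p ζ} (L : LDs D Ω) {Q : DP K Ω} (Dg : GP p m l w N P R) (X : VP K Ω p l k R)
    (hX : X.Ok D Q) (ht : X.Tr ζ) (ρ ρ₁ : Gal(Ω/K) →* R) (h : H38.ML.FT ρ)
    (h₁ : H38.ML.FT ρ₁) (hr : ∀ j, X.r j = ρ₁ (X.σ j)) :
    X.ph Dg ρ = if ∀ v ∈ D.S0, ∀ σ ∈ dec (K := K) (Q.P v), Dg.π (ρ σ) = Dg.π (ρ₁ σ)
      then 1 else 0 := by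
  have h1 := vs_one hp hp2 hζ Dg X hX ρ ρ₁ h h₁
  unfold VP.ph
  by_cases h0 : ∀ v ∈ D.S0, ∀ σ ∈ dec (K := K) (Q.P v), Dg.π (ρ σ) = Dg.π (ρ₁ σ)
  · have h2 : ∀ j, Dg.π (ρ (X.σ j)) = Dg.π (X.r j) := by
      intro j
      rw [hr]
      exact h1.2 h0 j
    rw [if_pos h0, if_pos h2, ep_eq_one hp]
    have h3 := vs_chi hp hζ Dg ρ ρ₁ h h₁ h0
    choose a ha using h3
    have h4 : ∀ j, dt (X.η j) (fun c => Dg.cv c (ρ (X.σ j) * (X.r j)⁻¹)) =
        ∑ c, dt (X.η j) (Pi.single c 1) * kk p ζ (a c) (X.σ j) := by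
      intro j
      unfold dt
      refine Finset.sum_congr rfl fun c _ => ?_
      obtain ⟨v, hv, hσ⟩ := hX.mem j
      rw [ha c v hv _ hσ, hr]
      congr 1
      rw [Finset.sum_eq_single c]
      · rw [Pi.single_eq_same, mul_one]
      · intro c' _ hc'
        rw [Pi.single_eq_of_ne hc', mul_zero]
      · intro h
        exact absurd (Finset.mem_univ c) h
    rw [Finset.sum_congr rfl fun j _ => h4 j, Finset.sum_comm]
    exact Finset.sum_eq_zero fun c _ => ht _ _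
  · have h2 : ¬ ∀ j, Dg.π (ρ (X.σ j)) = Dg.π (X.r j) := by
      intro h2
      apply h0
      apply h1.1
      intro j
      rw [h2 j, hr]
    rw [if_neg h0, if_neg h2]

/-- the value of the Kummer characters of the `pi v` at the virtual primes -/
theorem vs_lin (hp : p.Prime) (hp2 : MOne p K) (hζ : IsPrimitiveRoot ζ p) {D : RD0 K p ζ}
    {Q : DP K Ω} (X : VP K Ω p l k R) (hX : X.Ok D Q) :
    ∃ κ : Fin k → Fin D.r → ZMod p, ∀ v, v ∉ D.S0 → ∀ j,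
      kk p ζ (D.pi v) (X.σ j) = dt (κ j) (D.q v) := by
  have hpf : Fact p.Prime := ⟨hp⟩
  have hp0 : NeZero p := ⟨hp.ne_zero⟩
  have key : ∀ j : Fin k, ∃ κ : Fin D.r → ZMod p, ∀ v, v ∉ D.S0 →
      kk p ζ (D.pi v) (X.σ j) = dt κ (D.q v) := by
    intro j
    obtain ⟨F, hF⟩ : ∃ F : ({v : Pl K // v ∉ D.S0} →₀ ZMod p) →ₗ[ZMod p] (Fin D.r → ZMod p),
        ∀ v a, F (Finsupp.single v a) = a • D.q v :=
      ⟨Finsupp.linearCombination (ZMod p) (fun v : {v : Pl K // v ∉ D.S0} => D.q v),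
        fun v a => Finsupp.linearCombination_single _ _ _⟩
    obtain ⟨G, hG⟩ : ∃ G : ({v : Pl K // v ∉ D.S0} →₀ ZMod p) →ₗ[ZMod p] ZMod p,
        ∀ v a, G (Finsupp.single v a) = a * kk p ζ (D.pi v) (X.σ j) :=
      ⟨Finsupp.linearCombination (ZMod p)
        (fun v : {v : Pl K // v ∉ D.S0} => kk p ζ (D.pi v) (X.σ j)),
        fun v a => by rw [Finsupp.linearCombination_single, smul_eq_mul]⟩
    have hker : LinearMap.ker F ≤ LinearMap.ker G := by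
      intro x hx
      rw [LinearMap.mem_ker] at hx ⊢
      obtain ⟨M, hM⟩ : ∃ M : Pl K →₀ ℤ, M = (x.mapRange (fun a : ZMod p => (a.val : ℤ)) (by
          rw [ZMod.val_zero]; rfl)).mapDomain (fun v : {v : Pl K // v ∉ D.S0} => (v : Pl K)) :=
        ⟨_, rfl⟩
      have hinj : Function.Injective (fun v : {v : Pl K // v ∉ D.S0} => (v : Pl K)) :=
        Subtype.val_injective
      have hM0 : ∀ v ∈ D.S0, M v = 0 := by
        intro v hv
        rw [hM]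
        apply Finsupp.mapDomain_of_notMem_range
        rintro ⟨u, rfl⟩
        exact u.2 hv
      have hsum : (M.sum fun v n => (n : ZMod p) • D.q v) = F x := by
        rw [hM, Finsupp.sum_mapDomain_index_inj hinj, Finsupp.sum_mapRange_index (by
          intro v
          rw [Int.cast_zero, zero_smul])]
        conv_rhs => rw [← Finsupp.sum_single x]
        rw [Finsupp.sum, Finsupp.sum, map_sum]
        refine Finset.sum_congr rfl fun v _ => ?_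
        rw [hF, Int.cast_natCast, ZMod.natCast_zmod_val]
      have hps := D.prim_of M hM0 (by rw [hsum, hx])
      obtain ⟨v', hv', hσ'⟩ := hX.mem j
      have h1 := ps_triv hp hp2 hζ D Q _ hps v' hv' _ hσ'
      rw [Finsupp.prod, kk_prod_arg hp hζ] at h1
      have h2 : (M.sum fun v n => (n : ZMod p) * kk p ζ (D.pi v) (X.σ j)) = 0 := by
        rw [← h1, Finsupp.sum]
        refine Finset.sum_congr rfl fun v _ => ?_
        rw [kk_zpow_arg hp hζ]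
      rw [← h2, hM, Finsupp.sum_mapDomain_index_inj hinj, Finsupp.sum_mapRange_index (by
          intro v
          rw [Int.cast_zero, zero_mul])]
      conv_lhs => rw [← Finsupp.sum_single x]
      rw [Finsupp.sum, Finsupp.sum, map_sum]
      refine Finset.sum_congr rfl fun v _ => ?_
      rw [hG, Int.cast_natCast, ZMod.natCast_zmod_val]
    have hann : G ∈ (LinearMap.ker F).dualAnnihilator := by
      rw [Submodule.mem_dualAnnihilator]
      intro x hx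
      exact LinearMap.mem_ker.1 (hker hx)
    rw [← LinearMap.range_dualMap_eq_dualAnnihilator_ker] at hann
    obtain ⟨g, hg⟩ := hann
    refine ⟨fun i => g (Pi.single i 1), fun v hv => ?_⟩
    have h1 := LinearMap.congr_fun hg (Finsupp.single ⟨v, hv⟩ 1)
    rw [LinearMap.dualMap_apply, hF, hG, one_smul, one_mul] at h1
    rw [← h1]
    conv_lhs => rw [← epc_exp (D.q v)]
    rw [map_sum]
    unfold dt
    refine Finset.sum_congr rfl fun i _ => ?_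
    rw [map_smul, smul_eq_mul, mul_comm]
  choose κ hκ using key
  exact ⟨κ, fun v hv j => hκ j v hv⟩

end H57.CC
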