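import Pool.Agent.H57.CC.Def
import Pool.Agent.H57.BRA.Def
import Pool.Agent.H77.S0T.Suo

/-!
# H57-CC-SUO: the families without a large prime in some class (helper77)
-/

set_option autoImplicit false

open scoped NumberField
open IsDedekindDomain Filter Topology
open scoped Classical

noncomputable section

namespace H57.CC

open H57.PC H57.LOW H63.MA H38.BB H38.BG H51.CUB H77.PT H77.PC3 H57.MP H57.BRA

variable {K : Type} [Field K] [NumberField K] {p : ℕ} {ζ : K} {Ω : Type} [Field Ω]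
  [Algebra K Ω] [IsAlgClosure K Ω] {m l w N k : ℕ} {P R : Type} [Group P] [Group R]

/-- families with a class without large primes are negligible, sharp form -/
theorem suo [NeZero p] [Finite P] [Finite R] (hp : p.Prime) (hp2 : MOne p K)
    (hζ : IsPrimitiveRoot ζ p) (hz : Z2 p K) (D : RD K p ζ) (L : LDs D.toRD0 Ω) (Fr : FR L)
    (Dg : GP p m l w N P R) (hN : 1 ≤ N) :
    ∃ C B Y₀ : ℝ, 0 < C ∧ 0 ≤ B ∧ 3 ≤ Y₀ ∧ ∀ b : Fin m → Kˣ, BS2 D.toRD0 b ∅ → ∀ Y : ℝ, Y₀ ≤ Y →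
      (∑ f ∈ Fintype.piFinset (fun _ : Fin N => GF D.toRD0 Y),
        if Fa D.toRD0 Dg.cr b Y f ∧ ¬ Big (thr Y 1) f then
          FW Dg Fr b ∅ (fun _ _ => 1) f else 0) ≤
        C * Y * Real.log Y ^ ((N : ℝ) - 2) * (1 + Real.log (Real.log Y)) ^ B := by
  obtain ⟨C, Y₀, B, hC, hY₀, h⟩ := H77.S0T.suo_all hp hp2 hζ hz D L Fr Dg
  refine ⟨C * 2 ^ (N - 1), B, Y₀, by positivity, Nat.cast_nonneg B, hY₀, ?_⟩
  intro b hb Y hY
  have hY3 : 3 ≤ Y := hY₀.trans hY
  have hl1 : 1 ≤ Real.log Y := (Real.le_log_iff_exp_le (by linarith)).2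
    (Real.exp_one_lt_three.le.trans hY3)
  have hll : 0 ≤ Real.log (Real.log Y) := Real.log_nonneg hl1
  have hnr : nr (∅ : Finset (Pl K)) ≤ thr Y 0 := by
    have h1 : nr (∅ : Finset (Pl K)) = 1 := by simp [nr]
    rw [h1]
    unfold thr
    exact Real.one_le_exp (pow_nonneg hll _)
  have h2 := h Y hY b ∅ hb hnr (fun _ _ => 1)
  have h3 : (∑ f ∈ Fintype.piFinset (fun _ : Fin N => GF D.toRD0 Y),
        if Fa D.toRD0 Dg.cr b Y f ∧ ¬ Big (thr Y 1) f then
          FW Dg Fr b ∅ (fun _ _ => 1) f else 0) =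
      ∑ f ∈ Fintype.piFinset (fun _ : Fin N => GF D.toRD0 Y),
        if (Dj f ∧ (∀ i, Disjoint (f i) ∅) ∧ ∏ i, nr (f i) ≤ Y ∧ SpR Dg.cr b f) ∧
            ¬ ∀ i, ∃ v ∈ f i, thr Y 1 < nm v then FW Dg Fr b ∅ (fun _ _ => 1) f else 0 := by
    refine Finset.sum_congr rfl fun f _ => ?_
    refine if_congr ?_ rfl rfl
    unfold Fa Big
    simp only [Finset.disjoint_empty_right, implies_true, true_and]
  rw [h3]
  refine h2.trans ?_
  obtain ⟨u, hu⟩ : ∃ u : ℝ, u = Real.log Y := ⟨_, rfl⟩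
  obtain ⟨z, hz⟩ : ∃ z : ℝ, z = (1 + Real.log (Real.log Y)) ^ B := ⟨_, rfl⟩
  rw [Real.rpow_natCast, ← hz, ← hu]
  rw [← hu] at hl1
  have hz0 : 0 ≤ z := by
    rw [hz]
    positivity
  have hu0 : 0 < u := by linarith
  have h4 : u ^ ((N : ℝ) - 2) = u ^ (N - 1) / u := by
    rw [show (N : ℝ) - 2 = ((N - 1 : ℕ) : ℝ) - 1 by
      rw [Nat.cast_sub hN]
      push_cast
      ring, Real.rpow_sub hu0, Real.rpow_natCast, Real.rpow_one]
  rw [h4]
  have h5 : (1 + u) ^ (N - 1) ≤ 2 ^ (N - 1) * u ^ (N - 1) := by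
    rw [← mul_pow]
    exact pow_le_pow_left₀ (by linarith) (by linarith) _
  have hY0 : 0 < Y := by linarith
  calc C * Y * (1 + u) ^ (N - 1) * (z / (1 + u)) ≤
        C * Y * (2 ^ (N - 1) * u ^ (N - 1)) * (z / u) := by
        refine mul_le_mul (mul_le_mul_of_nonneg_left h5 (by positivity)) ?_ (by positivity)
          (by positivity)
        exact div_le_div_of_nonneg_left hz0 hu0 (by linarith)
    _ = _ := by ring

end H57.CC
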