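import Pool.Agent.H57.CC.Def
import Pool.Agent.H57.BRA.Def
import Pool.Agent.H57.CC.Suo
import Pool.Agent.H77.S0T.Lf
import Pool.Agent.H77.S0T.Lg

/-!
# H57-CC-M1: the number of lifts to P: equidistribution at S0 (helper77, helper41)
-/

set_option autoImplicit false

open scoped NumberField
open IsDedekindDomain Filter Topology
open scoped Classical

noncomputable section

namespace H57.CC

open H57.PC H57.LOW H63.MA H38.BB H38.BG H51.CUB H77.PT H77.PC3 H57.MP H57.BRA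

variable {K : Type} [Field K] [NumberField K] {p : ℕ} {ζ : K} {Ω : Type} [Field Ω]
  [Algebra K Ω] [IsAlgClosure K Ω] {m l w N k : ℕ} {P R : Type} [Group P] [Group R]

/-- the surjective homomorphisms as a sum over level one data and families -/
theorem sy3_dec [NeZero p] [Finite P] [Finite R] (hp : p.Prime) (h2 : p ≠ 2)
    (hζ : IsPrimitiveRoot ζ p) (D : RD K p ζ) (L : LDs D.toRD0 Ω) (Q : DP K Ω) (Fr : FR L)
    (Dg : GP p m l w N P R) :
    ∃ Ub : Finset (Fin m → Kˣ), (∀ b ∈ Ub, BS2 D.toRD0 b ∅) ∧ ∀ (φ₁ : Gal(Ω/K) →* P) (Y : ℝ),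
      (SY3 L Q Dg φ₁ Y).Finite ∧ (SY3 L Q Dg φ₁ Y).ncard = ∑ b ∈ Ub,
        ∑ f ∈ Fintype.piFinset (fun _ : Fin N => GF D.toRD0 Y),
          if Fa D.toRD0 Dg.cr b Y f then (FPT L Q Dg b f φ₁).ncard else 0 :=
  H77.S0T.sy3x hp hζ D.toRD0 L Q Dg

/-- the number of lifts is on average a constant times the number of `ρ` with local lifts -/
theorem m1 [NeZero p] [Finite P] [Finite R] (hp : p.Prime) (h2 : p ≠ 2)
    (hζ : IsPrimitiveRoot ζ p) (hz : Z2 p K) (D : RD K p ζ) (L : LDs D.toRD0 Ω) (Q : DP K Ω)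
    (Fr : FR L) (Dg : GP p m l w N P R) (hN : 1 ≤ N) (hW : WTy Dg) (φ₁ : Gal(Ω/K) →* P)
    (h₁ : H38.ML.FT φ₁) :
    ∃ h₂ : ℝ, 0 < h₂ ∧ ∀ b : Fin m → Kˣ, BS2 D.toRD0 b ∅ →
      Neg N fun Y => (((∑ f ∈ Fintype.piFinset (fun _ : Fin N => GF D.toRD0 Y),
        if Fa D.toRD0 Dg.cr b Y f then ((FPT L Q Dg b f φ₁).ncard : ℝ) -
          h₂ * FWT Q Dg Fr b (Dg.q.comp φ₁) f else 0 : ℝ)) : ℂ) :=
  H77.S0T.m1x hp h2 hζ hz D L Q Fr Dg hW φ₁ h₁

end H57.CC
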