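import Pool.Agent.H57.CC.Def
import Pool.Agent.H57.BRA.Def

/-!
# H57-CC-TAU: from the smooth sums to the sums (helper41)

`I(Y) = ∑ c i (Y - n i)` (`n i ≤ Y`): `I(2Y) - I(Y)` is `Y` times the smooth sum, so `I(Y) ~ (L₀ / 3) Y ^ 2 log Y ^ (N - 1)` by
dyadic summation; the sharp sum is between difference quotients of `I`.
-/

set_option autoImplicit false

open scoped NumberField
open IsDedekindDomain Filter Topology
open scoped Classical

noncomputable section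

namespace H57.CC

open H57.PC H57.LOW H63.MA H38.BB H38.BG H51.CUB H77.PT H77.PC3 H57.MP H57.BRA

section Tau


/-- `wl (x / Y)` times `Y`, as a difference -/
private theorem tau_wl {x Y : ℝ} (hY : 0 < Y) : Y * wl (x / Y) = max 0 (2 * Y - x) - max 0 (Y - x) := by
  unfold wl
  have h1 : x / Y * Y = x := div_mul_cancel₀ x hY.ne'
  obtain ⟨q, hq⟩ : ∃ q, q = x / Y := ⟨_, rfl⟩
  rw [← hq] at h1 ⊢
  subst h1
  rcases le_total q 1 with h | h
  · rw [min_eq_left (by linarith), max_eq_right zero_le_one, max_eq_right (by nlinarith),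
      max_eq_right (by nlinarith)]
    ring
  · rcases le_total q 2 with h' | h'
    · rw [min_eq_right (by linarith), max_eq_right (by linarith), max_eq_right (by nlinarith),
        max_eq_left (by nlinarith)]
      ring
    · rw [min_eq_right (by linarith), max_eq_left (by linarith), max_eq_left (by nlinarith),
        max_eq_left (by nlinarith)]
      ring

variable {ι : Type} (n c : ι → ℝ) (ok : ι → Prop) (S : ℝ → Finset ι)

/-- the second primitive -/
private def tI (Y : ℝ) : ℝ := ∑ i ∈ S Y, c i * (Y - n i)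

variable {n c ok S}

private theorem tI_big (hS : ∀ Y i, i ∈ S Y ↔ ok i ∧ n i ≤ Y) {Y Z : ℝ} (h : Y ≤ Z) :
    tI n c S Y = ∑ i ∈ S Z, c i * max 0 (Y - n i) := by
  unfold tI
  have hsub : S Y ⊆ S Z := by
    intro i hi
    rw [hS] at hi ⊢
    exact ⟨hi.1, hi.2.trans h⟩
  rw [← Finset.sum_subset hsub (f := fun i => c i * max 0 (Y - n i))]
  · refine Finset.sum_congr rfl fun i hi => ?_
    rw [hS] at hi
    rw [max_eq_right (by linarith [hi.2])]
  · intro i hi hni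
    rw [hS] at hi hni
    have : Y < n i := by
      by_contra hcon
      exact hni ⟨hi.1, not_lt.1 hcon⟩
    rw [max_eq_left (by linarith), mul_zero]

private theorem tI_diff (hS : ∀ Y i, i ∈ S Y ↔ ok i ∧ n i ≤ Y) {Y : ℝ} (hY : 0 < Y) :
    tI n c S (2 * Y) - tI n c S Y = Y * ∑ i ∈ S (2 * Y), c i * wl (n i / Y) := by
  rw [tI_big hS (le_refl (2 * Y)), tI_big hS (by linarith : Y ≤ 2 * Y), ← Finset.sum_sub_distrib,
    Finset.mul_sum]
  refine Finset.sum_congr rfl fun i _ => ?_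
  have := tau_wl (x := n i) hY
  linear_combination (-c i) * this

private theorem tI_up (hc : ∀ i, 0 ≤ c i) (hS : ∀ Y i, i ∈ S Y ↔ ok i ∧ n i ≤ Y) {Y Z : ℝ}
    (h : Y ≤ Z) : (Z - Y) * ∑ i ∈ S Y, c i ≤ tI n c S Z - tI n c S Y := by
  have hsub : S Y ⊆ S Z := by
    intro i hi
    rw [hS] at hi ⊢
    exact ⟨hi.1, hi.2.trans h⟩
  have h1 : ∑ i ∈ S Y, c i * (Z - n i) ≤ tI n c S Z := by
    unfold tI
    refine Finset.sum_le_sum_of_subset_of_nonneg hsub fun i hi _ => ?_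
    rw [hS] at hi
    exact mul_nonneg (hc i) (by linarith [hi.2])
  have h2 : (Z - Y) * ∑ i ∈ S Y, c i = ∑ i ∈ S Y, c i * (Z - n i) - tI n c S Y := by
    unfold tI
    rw [← Finset.sum_sub_distrib, Finset.mul_sum]
    refine Finset.sum_congr rfl fun i _ => ?_
    ring
  linarith

private theorem tI_dn (hc : ∀ i, 0 ≤ c i) (hS : ∀ Y i, i ∈ S Y ↔ ok i ∧ n i ≤ Y) {Y Z : ℝ}
    (h : Y ≤ Z) : tI n c S Z - tI n c S Y ≤ (Z - Y) * ∑ i ∈ S Z, c i := by
  rw [tI_big hS (le_refl Z), tI_big hS h, ← Finset.sum_sub_distrib, Finset.mul_sum]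
  refine Finset.sum_le_sum fun i _ => ?_
  have h1 := hc i
  have h2 : max 0 (Z - n i) - max 0 (Y - n i) ≤ Z - Y := by
    rcases le_total (n i) Y with h3 | h3
    · rw [max_eq_right (by linarith), max_eq_right (by linarith)]
      linarith
    · rw [max_eq_left (by linarith : Y - n i ≤ 0)]
      rcases le_total (n i) Z with h4 | h4
      · rw [max_eq_right (by linarith)]
        linarith
      · rw [max_eq_left (by linarith)]
        linarith
  have h3 := mul_le_mul_of_nonneg_left h2 h1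
  linarith

private theorem tI_mono (hc : ∀ i, 0 ≤ c i) (hS : ∀ Y i, i ∈ S Y ↔ ok i ∧ n i ≤ Y) {Y Z : ℝ}
    (h : Y ≤ Z) : tI n c S Y ≤ tI n c S Z := by
  have h1 := tI_up hc hS h
  have h2 : 0 ≤ (Z - Y) * ∑ i ∈ S Y, c i := mul_nonneg (by linarith) (Finset.sum_nonneg fun i _ => hc i)
  linarith

/-- dyadic summation: if `J (2 Y) - J Y` is `≤ ε Y ^ 2 log Y ^ k` and `J` is bounded on `[a, 2a]` then `J Y` is at most
`C + ε Y ^ 2 log Y ^ k` -/
private theorem dy_sum {J : ℝ → ℝ} {a ε C : ℝ} {k : ℕ} (ha : 1 ≤ a) (hε : 0 ≤ ε)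
    (h1 : ∀ Y, a ≤ Y → |J (2 * Y) - J Y| ≤ ε * (Y ^ 2 * Real.log Y ^ k))
    (h2 : ∀ Y, a ≤ Y → Y ≤ 2 * a → |J Y| ≤ C) (m : ℕ) :
    ∀ Y, a ≤ Y → Y ≤ 2 * a → |J (2 ^ m * Y)| ≤ C + ε * ((2 ^ m * Y) ^ 2 * Real.log (2 ^ m * Y) ^ k) := by
  induction m with
  | zero =>
    intro Y hY hY2
    rw [pow_zero, one_mul]
    have := h2 Y hY hY2
    have h3 : 0 ≤ ε * (Y ^ 2 * Real.log Y ^ k) := by
      have := Real.log_nonneg (ha.trans hY)
      positivity
    linarith
  | succ m ih =>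
    intro Y hY hY2
    have h3 := ih Y hY hY2
    obtain ⟨Z, hZ⟩ : ∃ Z, Z = 2 ^ m * Y := ⟨_, rfl⟩
    have e1 : (2 : ℝ) ^ (m + 1) * Y = 2 * Z := by rw [hZ]; ring
    rw [e1]
    rw [← hZ] at h3
    have hm : (1 : ℝ) ≤ 2 ^ m := one_le_pow₀ one_le_two
    have hZa : a ≤ Z := by rw [hZ]; nlinarith
    have h4 := h1 Z hZa
    have h5 : |J (2 * Z)| ≤ |J (2 * Z) - J Z| + |J Z| := by
      have := abs_add_le (J (2 * Z) - J Z) (J Z)
      rwa [sub_add_cancel] at this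
    have hl : 0 ≤ Real.log Z := Real.log_nonneg (ha.trans hZa)
    have h6 : Real.log Z ^ k ≤ Real.log (2 * Z) ^ k :=
      pow_le_pow_left₀ hl (Real.log_le_log (by linarith) (by linarith)) k
    have h7 : 0 ≤ Real.log Z ^ k := pow_nonneg hl k
    have h8 : ε * (Z ^ 2 * Real.log Z ^ k) + ε * (Z ^ 2 * Real.log Z ^ k) ≤
        ε * ((2 * Z) ^ 2 * Real.log (2 * Z) ^ k) := by
      rw [← mul_add]
      refine mul_le_mul_of_nonneg_left ?_ hε
      nlinarith [mul_nonneg (sq_nonneg Z) h7, mul_le_mul_of_nonneg_left h6 (sq_nonneg Z)]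
    linarith

/-- every `Y ≥ a` is `2 ^ m * Z` with `a ≤ Z ≤ 2 a` -/
private theorem dy_ex {a Y : ℝ} (ha : 1 ≤ a) (hY : a ≤ Y) : ∃ (m : ℕ) (Z : ℝ), a ≤ Z ∧ Z ≤ 2 * a ∧ Y = 2 ^ m * Z := by
  have ha0 : 0 < a := by linarith
  have h1 : 1 ≤ Y / a := (one_le_div ha0).2 hY
  obtain ⟨m, hm1, hm2⟩ := exists_nat_pow_near h1 one_lt_two
  have hp : (0 : ℝ) < 2 ^ m := by positivity
  refine ⟨m, Y / 2 ^ m, ?_, ?_, ?_⟩
  · rw [le_div_iff₀ hp]
    rw [le_div_iff₀ ha0] at hm1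
    linarith
  · rw [div_le_iff₀ hp]
    rw [div_lt_iff₀ ha0, pow_succ] at hm2
    linarith
  · field_simp

/-- logarithms of `t Y` -/
private theorem log_ratio (k : ℕ) {t : ℝ} (ht : 0 < t) :
    Tendsto (fun Y : ℝ => Real.log (t * Y) ^ k / Real.log Y ^ k) atTop (𝓝 1) := by
  have h1 : Tendsto (fun Y : ℝ => (Real.log t + Real.log Y) / Real.log Y) atTop (𝓝 1) := by
    have h2 : Tendsto (fun Y : ℝ => Real.log t / Real.log Y + 1) atTop (𝓝 (0 + 1)) :=
      (Real.tendsto_log_atTop.const_div_atTop _).add_const 1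
    rw [zero_add] at h2
    refine h2.congr' ?_
    filter_upwards [eventually_gt_atTop 1] with Y hY
    have := Real.log_pos hY
    field_simp
  have h3 := h1.pow k
  rw [one_pow] at h3
  refine h3.congr' ?_
  filter_upwards [eventually_gt_atTop 0] with Y hY
  rw [div_pow, Real.log_mul ht.ne' hY.ne']

private theorem tI_lim (hc : ∀ i, 0 ≤ c i) (hS : ∀ Y i, i ∈ S Y ↔ ok i ∧ n i ≤ Y) (k : ℕ) {L₀ : ℝ}
    (h : Tendsto (fun Y : ℝ => (∑ i ∈ S (2 * Y), c i * wl (n i / Y)) / (Y * Real.log Y ^ k)) atTop (𝓝 L₀)) :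
    Tendsto (fun Y : ℝ => tI n c S Y / (Y ^ 2 * Real.log Y ^ k)) atTop (𝓝 (L₀ / 3)) := by
  -- the function `J`
  obtain ⟨J, hJ⟩ : ∃ J : ℝ → ℝ, J = fun Y => tI n c S Y - L₀ / 3 * (Y ^ 2 * Real.log Y ^ k) := ⟨_, rfl⟩
  have hw : ∀ᶠ Y : ℝ in atTop, 0 < Y ^ 2 * Real.log Y ^ k := by
    filter_upwards [eventually_gt_atTop 1] with Y hY
    have := Real.log_pos hY
    positivity
  have hd : Tendsto (fun Y : ℝ => (J (2 * Y) - J Y) / (Y ^ 2 * Real.log Y ^ k)) atTop (𝓝 0) := by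
    have h1 := (log_ratio k (two_pos : (0 : ℝ) < 2)).const_mul (4 * L₀ / 3)
    have h2 := (h.sub h1).add_const (L₀ / 3)
    have e : L₀ - 4 * L₀ / 3 * 1 + L₀ / 3 = 0 := by ring
    rw [e] at h2
    refine h2.congr' ?_
    filter_upwards [hw, eventually_gt_atTop 1] with Y hY hY1
    have hY0 : 0 < Y := by linarith
    have hl := Real.log_pos hY1
    have hlk : 0 < Real.log Y ^ k := pow_pos hl k
    have h3 := tI_diff (c := c) hS hY0
    rw [hJ]
    simp only
    have h4 : tI n c S (2 * Y) = tI n c S Y + Y * ∑ i ∈ S (2 * Y), c i * wl (n i / Y) := by linarith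
    rw [h4]
    field_simp
    ring
  have key : Tendsto (fun Y : ℝ => J Y / (Y ^ 2 * Real.log Y ^ k)) atTop (𝓝 0) := by
    rw [Metric.tendsto_atTop]
    intro ε hε
    rw [Metric.tendsto_atTop] at hd
    obtain ⟨a0, ha0⟩ := hd (ε / 2) (by positivity)
    obtain ⟨a, ha⟩ : ∃ a, a = max a0 3 := ⟨_, rfl⟩
    have haa : a0 ≤ a := by rw [ha]; exact le_max_left _ _
    have ha3 : 3 ≤ a := by rw [ha]; exact le_max_right _ _
    have ha1 : 1 ≤ a := by linarith
    have hbd : ∀ Y, a ≤ Y → |J (2 * Y) - J Y| ≤ ε / 2 * (Y ^ 2 * Real.log Y ^ k) := by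
      intro Y hY
      have h1 := ha0 Y (haa.trans hY)
      have hpos : 0 < Y ^ 2 * Real.log Y ^ k := by
        have : 0 < Real.log Y := Real.log_pos (by linarith)
        have : 0 < Y := by linarith
        positivity
      rw [Real.dist_eq, sub_zero, abs_div, abs_of_pos hpos, div_lt_iff₀ hpos] at h1
      exact h1.le
    have hC : ∃ C : ℝ, ∀ Y, a ≤ Y → Y ≤ 2 * a → |J Y| ≤ C := by
      refine ⟨tI n c S (2 * a) + |L₀ / 3| * ((2 * a) ^ 2 * Real.log (2 * a) ^ k), fun Y hY hY2 => ?_⟩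
      rw [hJ]
      simp only
      have hI0 : 0 ≤ tI n c S Y := by
        unfold tI
        refine Finset.sum_nonneg fun i hi => ?_
        rw [hS] at hi
        exact mul_nonneg (hc i) (by linarith [hi.2])
      have h1 := tI_mono hc hS hY2
      have h2 : 0 ≤ Real.log Y := Real.log_nonneg (by linarith)
      have h3 : Real.log Y ^ k ≤ Real.log (2 * a) ^ k :=
        pow_le_pow_left₀ h2 (Real.log_le_log (by linarith) hY2) k
      have h4 : Y ^ 2 * Real.log Y ^ k ≤ (2 * a) ^ 2 * Real.log (2 * a) ^ k :=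
        mul_le_mul (pow_le_pow_left₀ (by linarith) hY2 2) h3 (pow_nonneg h2 k) (by positivity)
      have h5 : 0 ≤ Y ^ 2 * Real.log Y ^ k := mul_nonneg (sq_nonneg Y) (pow_nonneg h2 k)
      refine (abs_sub _ _).trans ?_
      rw [abs_of_nonneg hI0, abs_mul, abs_of_nonneg h5]
      have h6 := mul_le_mul_of_nonneg_left h4 (abs_nonneg (L₀ / 3))
      linarith
    obtain ⟨C, hC⟩ := hC
    have hgrow : Tendsto (fun Y : ℝ => C / (Y ^ 2 * Real.log Y ^ k)) atTop (𝓝 0) := by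
      refine Tendsto.const_div_atTop ?_ C
      refine tendsto_atTop_mono' atTop (f₁ := fun Y : ℝ => Y) ?_ tendsto_id
      filter_upwards [eventually_ge_atTop (Real.exp 1)] with Y hY
      have h1 : 1 ≤ Real.log Y := by
        rw [Real.le_log_iff_exp_le (lt_of_lt_of_le (Real.exp_pos 1) hY)]
        exact hY
      have h2 : 1 ≤ Real.log Y ^ k := one_le_pow₀ h1
      have h3 : 1 ≤ Y := by
        have := Real.add_one_le_exp (1 : ℝ)
        linarith
      nlinarith [sq_nonneg Y]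
    rw [Metric.tendsto_atTop] at hgrow
    obtain ⟨b0, hb0⟩ := hgrow (ε / 2) (by positivity)
    refine ⟨max a b0, fun Y hY => ?_⟩
    have hYa : a ≤ Y := (le_max_left _ _).trans hY
    have hYb : b0 ≤ Y := (le_max_right _ _).trans hY
    obtain ⟨m, Z, hZ1, hZ2, hZ3⟩ := dy_ex ha1 hYa
    have h1 := dy_sum ha1 (by positivity : 0 ≤ ε / 2) hbd hC m Z hZ1 hZ2
    rw [← hZ3] at h1
    have hpos : 0 < Y ^ 2 * Real.log Y ^ k := by
      have : 0 < Real.log Y := Real.log_pos (by linarith)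
      have : 0 < Y := by linarith
      positivity
    have h2 := hb0 Y hYb
    rw [Real.dist_eq, sub_zero, abs_div, abs_of_pos hpos, div_lt_iff₀ hpos] at h2
    rw [Real.dist_eq, sub_zero, abs_div, abs_of_pos hpos, div_lt_iff₀ hpos]
    have h3 := le_abs_self C
    nlinarith
  have h5 := key.add_const (L₀ / 3)
  rw [zero_add] at h5
  refine h5.congr' ?_
  filter_upwards [hw] with Y hY
  rw [hJ]
  simp only
  rw [sub_div, mul_div_assoc, div_self hY.ne']
  ring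

/-- monotone Tauberian theorem -/
theorem tau {ι : Type} (n c : ι → ℝ) (ok : ι → Prop) (hc : ∀ i, 0 ≤ c i) (hn : ∀ i, 1 ≤ n i)
    (S : ℝ → Finset ι) (hS : ∀ Y i, i ∈ S Y ↔ ok i ∧ n i ≤ Y) (N : ℕ) (L₀ : ℝ)
    (h : Tendsto (fun Y : ℝ => (∑ i ∈ S (2 * Y), c i * wl (n i / Y)) /
      (Y * Real.log Y ^ (N - 1))) atTop (𝓝 L₀)) :
    Tendsto (fun Y : ℝ => (∑ i ∈ S Y, c i) / (Y * Real.log Y ^ (N - 1))) atTop
      (𝓝 (2 / 3 * L₀)) := by
  obtain ⟨k, hk⟩ : ∃ k, k = N - 1 := ⟨_, rfl⟩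
  rw [← hk] at h ⊢
  have hI := tI_lim hc hS k h
  have hsc : ∀ t : ℝ, 0 < t → Tendsto (fun Y : ℝ => tI n c S (t * Y) / (Y ^ 2 * Real.log Y ^ k)) atTop
      (𝓝 (L₀ / 3 * t ^ 2)) := by
    intro t ht
    have h1 : Tendsto (fun Y : ℝ => t * Y) atTop atTop := tendsto_id.const_mul_atTop ht
    have h2 := ((hI.comp h1).mul (log_ratio k ht)).mul_const (t ^ 2)
    rw [mul_one] at h2
    refine h2.congr' ?_
    filter_upwards [eventually_gt_atTop 1, h1.eventually (eventually_gt_atTop 1)] with Y hY hY2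
    have h3 := Real.log_pos hY
    have h4 := Real.log_pos hY2
    have h5 : 0 < Y := by linarith
    simp only [Function.comp]
    field_simp
  have hup : ∀ δ : ℝ, 0 < δ → ∀ᶠ Y : ℝ in atTop,
      (∑ i ∈ S Y, c i) / (Y * Real.log Y ^ k) ≤ L₀ / 3 * (2 + δ) + δ := by
    intro δ hδ
    have h1 := ((hsc (1 + δ) (by linarith)).sub (hsc 1 one_pos)).div_const δ
    have e : (L₀ / 3 * (1 + δ) ^ 2 - L₀ / 3 * 1 ^ 2) / δ = L₀ / 3 * (2 + δ) := by
      field_simp
      ring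
    rw [e] at h1
    filter_upwards [h1.eventually (gt_mem_nhds (by linarith : L₀ / 3 * (2 + δ) < L₀ / 3 * (2 + δ) + δ)),
      eventually_gt_atTop 1] with Y hY hY1
    refine le_trans ?_ hY.le
    have hY0 : 0 < Y := by linarith
    have hl := Real.log_pos hY1
    have h3 := tI_up hc hS (by nlinarith : Y ≤ (1 + δ) * Y)
    have hpos : 0 < Y ^ 2 * Real.log Y ^ k := by positivity
    rw [one_mul, ← sub_div, div_div, div_le_div_iff₀ (by positivity) (by positivity)]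
    have e2 : (1 + δ) * Y - Y = δ * Y := by ring
    rw [e2] at h3
    have h4 := mul_le_mul_of_nonneg_right h3 (by positivity : 0 ≤ Y * Real.log Y ^ k)
    calc (∑ i ∈ S Y, c i) * (Y ^ 2 * Real.log Y ^ k * δ) =
          δ * Y * (∑ i ∈ S Y, c i) * (Y * Real.log Y ^ k) := by ring
      _ ≤ _ := h4
  have hdn : ∀ δ : ℝ, 0 < δ → δ < 1 → ∀ᶠ Y : ℝ in atTop,
      L₀ / 3 * (2 - δ) - δ ≤ (∑ i ∈ S Y, c i) / (Y * Real.log Y ^ k) := by
    intro δ hδ hδ1
    have h1 := ((hsc 1 one_pos).sub (hsc (1 - δ) (by linarith))).div_const δ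
    have e : (L₀ / 3 * 1 ^ 2 - L₀ / 3 * (1 - δ) ^ 2) / δ = L₀ / 3 * (2 - δ) := by
      field_simp
      ring
    rw [e] at h1
    filter_upwards [h1.eventually (lt_mem_nhds (by linarith : L₀ / 3 * (2 - δ) - δ < L₀ / 3 * (2 - δ))),
      eventually_gt_atTop 1] with Y hY hY1
    refine le_trans hY.le ?_
    have hY0 : 0 < Y := by linarith
    have hl := Real.log_pos hY1
    have h3 := tI_dn hc hS (by nlinarith : (1 - δ) * Y ≤ Y)
    have hpos : 0 < Y ^ 2 * Real.log Y ^ k := by positivity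
    rw [one_mul, ← sub_div, div_div, div_le_div_iff₀ (by positivity) (by positivity)]
    have e2 : Y - (1 - δ) * Y = δ * Y := by ring
    rw [e2] at h3
    have h4 := mul_le_mul_of_nonneg_right h3 (by positivity : 0 ≤ Y * Real.log Y ^ k)
    calc _ ≤ δ * Y * (∑ i ∈ S Y, c i) * (Y * Real.log Y ^ k) := h4
      _ = (∑ i ∈ S Y, c i) * (Y ^ 2 * Real.log Y ^ k * δ) := by ring
  rw [Metric.tendsto_atTop]
  intro ε hε
  obtain ⟨δ, hδ⟩ : ∃ δ, δ = min (1 / 2) (ε / (2 * (|L₀| + 1))) := ⟨_, rfl⟩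
  have hδ0 : 0 < δ := by rw [hδ]; positivity
  have hδ1 : δ < 1 := by
    rw [hδ]
    exact (min_le_left _ _).trans_lt (by norm_num)
  have hδ2 : δ * (|L₀| + 1) < ε := by
    have h1 : δ ≤ ε / (2 * (|L₀| + 1)) := by rw [hδ]; exact min_le_right _ _
    have h2 : 0 < |L₀| + 1 := by positivity
    rw [le_div_iff₀ (by positivity)] at h1
    linarith
  obtain ⟨Y1, hY1⟩ := eventually_atTop.1 ((hup δ hδ0).and (hdn δ hδ0 hδ1))
  refine ⟨Y1, fun Y hY => ?_⟩
  obtain ⟨h1, h2⟩ := hY1 Y hY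
  have h3 : L₀ * δ ≤ |L₀| * δ := mul_le_mul_of_nonneg_right (le_abs_self _) hδ0.le
  have h4 : 0 ≤ |L₀| * δ := by positivity
  rw [Real.dist_eq, abs_lt]
  constructor <;> nlinarith

end Tau

end H57.CC
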