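import Pool.Agent.H57.CC.Def
import Pool.Agent.H57.BRA.Def
import Pool.Agent.H57.CC.VS
import Pool.Agent.H57.CC.Rcs
import Pool.Agent.H41.CC.Lsm
import Pool.Agent.H41.CC.Avg
import Pool.Agent.H41.CC.Nbg
import Pool.Agent.H41.CC.Pt
import Pool.Agent.H57.LOW.Log
import Pool.Agent.H57.LOW.Loh
import Pool.Agent.H51.CUB.SMB

/-!
# H57-CC-M7: the level one limit (helper41)

`FX (fC 0) f = rhn * h (classes of f) * wtR f` (`ptw`, `lc_cls`, Pool/Agent/H41/CC/Pt), the sharp sums have a limit (`lsm`), hence the smooth sums (`avg`), and the families with `¬ Big` are negligible (`nbg`).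
-/

set_option autoImplicit false

open scoped NumberField
open IsDedekindDomain Filter Topology
open scoped Classical

noncomputable section

namespace H57.CC

open H57.PC H57.LOW H63.MA H38.BB H38.BG H51.CUB H77.PT H77.PC3 H57.MP H57.BRA

variable {K : Type} [Field K] [NumberField K] {p : ℕ} {ζ : K} {Ω : Type} [Field Ω]
  [Algebra K Ω] [IsAlgClosure K Ω] {m l w N k : ℕ} {P R : Type} [Group P] [Group R]

/-- the sums with a trivial functional have a limit -/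
theorem m7 [NeZero p] [Finite P] [Finite R] (hp : p.Prime) (h2 : p ≠ 2)
    (hζ : IsPrimitiveRoot ζ p) (hz : Z2 p K) (D : RD K p ζ) (L : LDs D.toRD0 Ω) (Q : DP K Ω)
    (Fr : FR L) (Dg : GP p m l w N P R) (hN : 1 ≤ N) (X : VP K Ω p l k R)
    (hX : X.Ok D.toRD0 Q) (ht : X.Tr ζ) (ρ₁ : Gal(Ω/K) →* R) (h₁ : H38.ML.FT ρ₁)
    (hr : ∀ j, X.r j = ρ₁ (X.σ j)) (b : Fin m → Kˣ) (hb : BS2 D.toRD0 b ∅)
    (θ : Fin N → Fin m → ZMod p) (hθ : ∀ i, dt (θ i) (Dg.s i) = 0) :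
    ∃ L₀ : ℂ, Tendsto (fun Y : ℝ => ZX Dg Fr b X θ (fC Dg 0) (Big (thr Y 1)) Y /
      ((Y * Real.log Y ^ (N - 1) : ℝ) : ℂ)) atTop (𝓝 L₀) := by
  have hp2 := mone_odd hp h2 K
  have hc : ∀ δ ∈ Dg.cr.L0, δ = 0 := fun δ hδ => log_dt_zero Dg hδ
  obtain ⟨h, hh, hcls⟩ := H41.CC.lc_cls hp hp2 hζ Q Dg X hX ρ₁ h₁ b
  obtain ⟨l₁, hl₁⟩ := H41.CC.lsm hp hp2 hζ D Dg.cr hN hc b hb θ hθ h hh
  obtain ⟨W, hW⟩ : ∃ W : (Fin N → Finset (Pl K)) → ℝ, W = fun f =>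
    wtR Dg.cr f (fun v k => D.LL v (akR D.toRD0 Dg.cr b f k)) := ⟨_, rfl⟩
  have hW0 : ∀ f, 0 ≤ W f := by
    intro f
    rw [hW]
    exact lb_wt_nonneg _ _ _
  obtain ⟨A, hA⟩ : ∃ A : (Fin N → Finset (Pl K)) → ℂ, A = fun f =>
    h (fun i => qf D.toRD0 (f i)) * (((W f : ℝ) : ℂ) * ep p (thp D.toRD0 Dg.cr b θ f)) := ⟨_, rfl⟩
  have hA0 : ∀ f, ‖A f‖ ≤ W f := by
    intro f
    rw [hA]
    simp only
    rw [norm_mul, norm_mul, ep_norm, mul_one, Complex.norm_real, Real.norm_of_nonneg (hW0 f)]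
    exact mul_le_of_le_one_left (hW0 f) (hh _)
  obtain ⟨S, hSd⟩ : ∃ S : ℝ → Finset (Fin N → Finset (Pl K)), S = fun Y =>
    (Fintype.piFinset (fun _ : Fin N => GF D.toRD0 Y)).filter
      (fun f => Dj f ∧ ∏ i, nr (f i) ≤ Y ∧ SpR Dg.cr b f) := ⟨_, rfl⟩
  have hS : ∀ (Y : ℝ) (f : Fin N → Finset (Pl K)), f ∈ S Y ↔
      ((∀ i, ∀ v ∈ f i, D.Gd v) ∧ Dj f ∧ SpR Dg.cr b f) ∧ ∏ i, nr (f i) ≤ Y := by
    intro Y f
    rw [hSd]
    simp only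
    rw [Finset.mem_filter, Fintype.mem_piFinset]
    constructor
    · rintro ⟨h3, h4, h5, h6⟩
      exact ⟨⟨fun i => ((akb_mem_GF D.toRD0).1 (h3 i)).2, h4, h6⟩, h5⟩
    · rintro ⟨⟨h3, h4, h6⟩, h5⟩
      exact ⟨fun i => (akb_mem_GF D.toRD0).2 ⟨(loh_single f i).trans h5, h3 i⟩, h4, h5, h6⟩
  have hlim : Tendsto (fun Y : ℝ => (∑ f ∈ S Y, A f) / ((Y * Real.log Y ^ (N - 1) : ℝ) : ℂ))
      atTop (𝓝 l₁) := by
    refine hl₁.congr fun Y => ?_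
    congr 1
    rw [hSd]
    simp only
    rw [Finset.sum_filter, hA, hW]
    rfl
  have havg := H41.CC.avg hS (N - 1) hlim
  -- the error
  obtain ⟨E, hE⟩ : ∃ E : ℝ → ℂ, E = fun Y =>
    ∑ f ∈ Fintype.piFinset (fun _ : Fin N => GF D.toRD0 (2 * Y)),
      if (Dj f ∧ ∏ i, nr (f i) ≤ 2 * Y ∧ SpR Dg.cr b f) ∧ ¬ Big (thr Y 1) f then
        ((wl ((∏ i, nr (f i)) / Y) : ℝ) : ℂ) * A f else 0 := ⟨_, rfl⟩
  have hEn : ∀ ε : ℝ, 0 < ε → ∃ Y₀ : ℝ, 3 ≤ Y₀ ∧ ∀ Y : ℝ, Y₀ ≤ Y →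
      ‖E Y‖ ≤ ε * Y * Real.log Y ^ (N - 1) := by
    intro ε hε
    obtain ⟨Y₀, hY₀, hn⟩ := H41.CC.nbg hp hp2 hζ D Dg.cr hN hc ε hε
    refine ⟨Y₀, hY₀, fun Y hY => le_trans ?_ (hn b hb Y hY)⟩
    rw [hE]
    refine (norm_sum_le _ _).trans (Finset.sum_le_sum fun f _ => ?_)
    split_ifs
    · rw [norm_mul, Complex.norm_real, Real.norm_of_nonneg (H51.CUB.wl_nonneg _)]
      have h3 := hA0 f
      rw [hW] at h3
      exact (mul_le_of_le_one_left (norm_nonneg _) (H51.CUB.wl_le_one _)).trans h3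
    · rw [norm_zero]
  have hEl : Tendsto (fun Y : ℝ => E Y / ((Y * Real.log Y ^ (N - 1) : ℝ) : ℂ)) atTop (𝓝 0) := by
    rw [Metric.tendsto_atTop]
    intro ε hε
    obtain ⟨Y₀, hY₀, hn⟩ := hEn (ε / 2) (by positivity)
    refine ⟨Y₀, fun Y hY => ?_⟩
    have hY3 : 3 ≤ Y := hY₀.trans hY
    have hw : 0 < Y * Real.log Y ^ (N - 1) := by
      have : 0 < Real.log Y := Real.log_pos (by linarith)
      positivity
    rw [dist_zero_right, norm_div, Complex.norm_real, Real.norm_of_nonneg hw.le,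
      div_lt_iff₀ hw]
    have h3 := hn Y hY
    nlinarith
  refine ⟨((rhn L Dg : ℝ) : ℂ) * (3 / 2 * l₁ - 0), ((havg.sub hEl).const_mul _).congr fun Y => ?_⟩
  rw [← sub_div, ← mul_div_assoc]
  congr 1
  rw [hSd, hE]
  simp only
  rw [Finset.sum_filter, ← Finset.sum_sub_distrib, Finset.mul_sum]
  unfold ZX
  refine Finset.sum_congr rfl fun f hf => ?_
  rw [Fintype.mem_piFinset] at hf
  have hG : ∀ i, ∀ v ∈ f i, D.Gd v := fun i => ((akb_mem_GF D.toRD0).1 (hf i)).2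
  unfold Fa
  by_cases h3 : Dj f ∧ ∏ i, nr (f i) ≤ 2 * Y ∧ SpR Dg.cr b f
  · rw [if_pos h3]
    by_cases h4 : Big (thr Y 1) f
    · rw [if_neg (fun h5 => h5.2 h4), if_pos ⟨h3, h4⟩, sub_zero,
        H41.CC.ptw hp hp2 hζ hz Q Fr Dg X hX ht ρ₁ h₁ hr b hb f h3.1 hG]
      have h5 : (if H41.CC.LC D.toRD0 Q Dg ρ₁ b f then
          (((rhn L Dg : ℝ) * wtR Dg.cr f (fun v k => D.LL v (akR D.toRD0 Dg.cr b f k)) : ℝ) : ℂ)
            else 0) = ((rhn L Dg : ℝ) : ℂ) * (h (fun i => qf D.toRD0 (f i)) * ((W f : ℝ) : ℂ)) := by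
        rw [← hcls f hG, hW]
        split_ifs
        · push_cast
          ring
        · ring
      rw [h5, hA]
      ring
    · rw [if_pos ⟨h3, h4⟩, if_neg (fun h5 => h4 h5.2), sub_self, mul_zero]
  · rw [if_neg h3, if_neg (fun h5 => h3 h5.1), if_neg (fun h5 => h3 h5.1), sub_self, mul_zero]

end H57.CC
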