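import Pool.Agent.H57.CC.Def
import Pool.Agent.H57.BRA.Def
import Pool.Agent.H77.PC3.CLx
import Pool.Agent.H89.BRG.TwG

/-!
# H57-CC-TCH: the twist by a family of characters in J0 (helper89)
-/

set_option autoImplicit false

open scoped NumberField
open IsDedekindDomain Filter Topology
open scoped Classical

noncomputable section

namespace H57.CC

open H57.PC H57.LOW H63.MA H38.BB H38.BG H51.CUB H77.PT H77.PC3 H57.MP H57.BRA H89.BRG

variable {K : Type} [Field K] [NumberField K] {p : ℕ} {ζ : K} {Ω : Type} [Field Ω]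
  [Algebra K Ω] [IsAlgClosure K Ω] {m l w N k : ℕ} {P R : Type} [Group P] [Group R]

/-- the phase of a family of characters in `J0` is a phase of level one and of the virtual primes -/
theorem tch [NeZero p] [Finite P] [Finite R] (hp : p.Prime) (h2 : p ≠ 2)
    (hζ : IsPrimitiveRoot ζ p) (hz : Z2 p K) (D : RD K p ζ) {L : LDs D.toRD0 Ω} (Q : DP K Ω)
    (Fr : FR L) (Dg : GP p m l w N P R) (χ : Fin N → Fin l → ZMod p) (hχ : InJ0 Dg χ)
    (X : VP K Ω p l k R) (hX : X.Ok D.toRD0 Q) (ρ₁ : Gal(Ω/K) →* R) (h₁ : H38.ML.FT ρ₁)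
    (hr : ∀ j, X.r j = ρ₁ (X.σ j)) :
    ∃ (c : ℂ) (η₀ : Fin k → Fin l → ZMod p) (θ : Fin N → Fin m → ZMod p), ‖c‖ = 1 ∧
      (∀ i, dt (θ i) (Dg.s i) = 0) ∧
      ∀ (η : Fin k → Fin l → ZMod p) (b : Fin m → Kˣ), BS2 D.toRD0 b ∅ →
        ∀ f : Fin N → Finset (Pl K), Dj f → (∀ i, ∀ v ∈ f i, D.Gd v) →
          ∀ ρ ∈ RHf L Dg b ∅ (fun _ _ => 1) f, (∀ i, ∀ v ∈ f i, cq Dg Fr ρ v ∈ Dg.Bi i) →
            (X.wi η).ph Dg ρ * ep p (∑ i, ∑ v ∈ f i, xi Dg (χ i) i (cq Dg Fr ρ v)) =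
              c * (X.wi (η + η₀)).ph Dg ρ * ep p (thp D.toRD0 Dg.cr b θ f) := by
  have hp2 := mone_odd hp h2 K
  obtain ⟨Ψ, hΨ, hJ⟩ := psi_lin hp Dg χ hχ
  obtain ⟨e, he, he0, hiv⟩ := ep_exists hp h2 Dg Ψ hJ
  obtain ⟨lam, hlam, hone⟩ := exists_rec_one K hp hp2 hζ
  have hloc := fun i => lob_theta hp Dg hχ hΨ he hiv i
  choose θ hθ1 hθ3 using hloc
  obtain ⟨τ, η₀, hτ⟩ := twg hp h2 hζ hz Q Fr Dg Ψ he he0 hiv hlam X hX ρ₁ h₁
  refine ⟨ep p τ, η₀, θ, ep_norm p τ, hθ1, fun η b _ f hdj hGd ρ hρ hm => ?_⟩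
  obtain ⟨r0, r1, r2, -, r4⟩ := (mem_RHf' hp hζ).1 hρ
  by_cases hπ : ∀ j, Dg.π (ρ (X.σ j)) = Dg.π (X.r j)
  · have hvS : ∀ i, ∀ v ∈ f i, v ∉ D.toRD0.S0 := fun i v hv => (hGd i v hv).1
    -- the local evaluation
    have hl : ∀ i, ∀ v ∈ f i, xi Dg (χ i) i (cq Dg Fr ρ v) =
        iv e (ρ (Fr.F v)) (ρ (L.t v)) +
          dt (θ i) (fun k => D.toRD0.LL v (akR D.toRD0 Dg.cr b f k)) := by
      intro i v hv
      have hc : ρ (Fr.F v) * ρ (L.t v) = ρ (L.t v) * ρ (Fr.F v) :=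
        Fr.com v (hvS i v hv) R ρ r0 fun τ _ => rexp hp h2 Dg _
      have h3 := lob_loc hp Dg hχ hΨ he hiv i (hθ3 i) hc (r2 i v hv).1 (hm i v hv)
      have h4 : Multiplicative.toAdd (Dg.π (ρ (Fr.F v))) =
          fun k => D.toRD0.LL v (akR D.toRD0 Dg.cr b f k) := by
        funext k
        rw [← r1, Fr.kf v (hvS i v hv)]
      rw [h4] at h3
      exact h3
    have hsum : ∑ i, ∑ v ∈ f i, xi Dg (χ i) i (cq Dg Fr ρ v) =
        (∑ i, ∑ v ∈ f i, iv e (ρ (Fr.F v)) (ρ (L.t v))) + thp D.toRD0 Dg.cr b θ f := by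
      unfold thp
      rw [← Finset.sum_add_distrib]
      refine Finset.sum_congr rfl fun i _ => ?_
      rw [← Finset.sum_add_distrib]
      exact Finset.sum_congr rfl fun v hv => hl i v hv
    -- the global evaluation
    have hdl : ∑ i, ∑ v ∈ f i, iv e (ρ (Fr.F v)) (ρ (L.t v)) =
        τ + ∑ j, dt (η₀ j) (fun c => Dg.cv c (ρ (X.σ j) * (X.r j)⁻¹)) := by
      have h3 := hτ ρ r0 fun j => by rw [hπ j, hr j]
      have h4 := dl_sum lam Fr he ρ (Finset.univ.biUnion f) (by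
        intro v hv
        obtain ⟨i, -, hi⟩ := Finset.mem_biUnion.1 hv
        exact hvS i v hi) (by
        intro v hv hvT
        refine r4 v hv (Finset.notMem_empty v) (fun i hi =>
          hvT (Finset.mem_biUnion.2 ⟨i, Finset.mem_univ _, hi⟩)) _ ?_
        rw [inr, dif_pos hv, LDs.t, dif_pos hv]
        exact (L.ld v hv).ht)
      rw [h4, Finset.sum_biUnion (fun i _ j _ hij => hdj i j hij)] at h3
      simp only [hr]
      rw [← h3]
      refine Finset.sum_congr rfl fun i _ => Finset.sum_congr rfl fun v hv => ?_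
      rw [hone v (fun h => hvS i v hv (D.toRD0.above v h)) (hGd i v hv).2, one_mul]
    have hph : (X.wi (η + η₀)).ph Dg ρ = (X.wi η).ph Dg ρ *
        ep p (∑ j, dt (η₀ j) (fun c => Dg.cv c (ρ (X.σ j) * (X.r j)⁻¹))) := by
      unfold VP.ph VP.wi
      rw [if_pos hπ, if_pos hπ, ← ep_add hp, ← Finset.sum_add_distrib]
      refine congrArg _ (Finset.sum_congr rfl fun j _ => ?_)
      exact tl_dtadd _ _ _
    rw [hsum, hdl, hph, ep_add hp, ep_add hp]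
    ring
  · have h3 : ∀ η : Fin k → Fin l → ZMod p, (X.wi η).ph Dg ρ = 0 := by
      intro η
      unfold VP.ph VP.wi
      rw [if_neg hπ]
    rw [h3, h3, zero_mul, mul_zero, zero_mul]

end H57.CC
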