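import Pool.Agent.H57.CC.Def
import Pool.Agent.H57.BRA.Def
import Pool.Agent.H57.CC.M7
import Pool.Agent.H57.CC.Suo
import Pool.Agent.H57.CC.Tch
import Pool.Agent.H57.CV.Pxb
import Pool.Agent.H57.CV.Mgv
import Pool.Agent.H57.CV.Twv
import Pool.Agent.H57.CV.Suz

/-!
# H57-CC-ZL: the limit of the smooth sums (assembly, helper57)
-/

set_option autoImplicit false

open scoped NumberField
open IsDedekindDomain Filter Topology
open scoped Classical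

noncomputable section

namespace H57.CC

open H57.CV H57.PC H57.LOW H63.MA H38.BB H38.BG H51.CUB H77.PT H77.PC3 H57.MP H57.BRA

variable {K : Type} [Field K] [NumberField K] {p : ℕ} {ζ : K} {Ω : Type} [Field Ω]
  [Algebra K Ω] [IsAlgClosure K Ω] {m l w N k : ℕ} {P R : Type} [Group P] [Group R]

/-- the smooth sums have a limit -/
theorem zl [NeZero p] [Finite P] [Finite R] (hp : p.Prime) (h2 : p ≠ 2)
    (hζ : IsPrimitiveRoot ζ p) (hz : Z2 p K) (D : RD K p ζ) (L : LDs D.toRD0 Ω) (Q : DP K Ω)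
    (Fr : FR L) (Dg : GP p m l w N P R) (hN : 1 ≤ N) (X : VP K Ω p l k R)
    (hX : X.Ok D.toRD0 Q) (ρ₁ : Gal(Ω/K) →* R) (h₁ : H38.ML.FT ρ₁)
    (hr : ∀ j, X.r j = ρ₁ (X.σ j)) (b : Fin m → Kˣ) (hb : BS2 D.toRD0 b ∅) :
    ∃ L₀ : ℂ, Tendsto (fun Y : ℝ => ZX Dg Fr b X (fun _ _ => 0) (fA Dg) (fun _ => True) Y /
      ((Y * Real.log Y ^ (N - 1) : ℝ) : ℂ)) atTop (𝓝 L₀) := by
  have hp2 : MOne p K := mone_odd hp h2 K
  have hev : ∀ᶠ Y : ℝ in atTop, Real.exp (Real.log (Real.log Y) ^ 5) ≤ thr Y 1 := by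
    filter_upwards [eventually_ge_atTop (Real.exp (Real.exp 1))] with Y hY
    exact (mu_x hY).1
  -- the pattern of `χ`
  have hχ : ∀ χ ∈ J0 Dg, Lm N fun Y => PCX Dg Fr b X (fun _ _ => 0) (fB Dg χ) Y := by
    intro χ hJ
    have hJ' : InJ0 Dg χ := (Finset.mem_filter.1 hJ).2
    obtain ⟨c, η₀, θ, hc, hθ, h⟩ := twv hp h2 hζ hz D (L := L) Q Fr Dg χ hJ' X hX ρ₁ h₁ hr
    have hX' : (X.wi (X.η + η₀)).Ok D.toRD0 Q := ⟨hX.mem, hX.det⟩
    have h0 : ∀ Y : ℝ, PCX Dg Fr b X (fun _ _ => 0) (fB Dg χ) Y =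
        c * PCX Dg Fr b (X.wi (X.η + η₀)) θ (fB Dg 0) Y := fun Y => h X.η b hb Y
    have h3 : Lm N fun Y => PCX Dg Fr b (X.wi (X.η + η₀)) θ (fun a => fC Dg 0 a.1) Y := by
      by_cases ht : (X.wi (X.η + η₀)).Tr ζ
      · obtain ⟨L₁, hL₁⟩ := m7 hp h2 hζ hz D L Q Fr Dg hN (X.wi (X.η + η₀)) hX' ht ρ₁ h₁ hr b hb
          θ hθ
        refine lm_congr ⟨L₁, hL₁⟩ ?_
        filter_upwards [hev] with Y hY
        exact (mgx Dg Fr b (X.wi (X.η + η₀)) θ (fC Dg 0) Y hY).symm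
      · exact lm_neg (px_x hp hp2 hζ hz D L Fr Dg (X.wi (X.η + η₀)) hX' ht b hb θ)
    have h4 := lm_diff h3 (px_b hp hp2 hζ hz D L Fr Dg (X.wi (X.η + η₀)) hX' b hb θ)
    simp only [h0]
    exact lm_mul c h4
  have h5 : Lm N fun Y => PCX Dg Fr b X (fun _ _ => 0) (fun a => fA Dg a.1) Y :=
    lm_diff (lm_sum (J0 Dg) hχ) (px_a hp hp2 hζ hz D L Fr Dg X hX b hb _)
  have h6 : Lm N fun Y => ZX Dg Fr b X (fun _ _ => 0) (fA Dg) (Big (thr Y 1)) Y := by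
    refine lm_congr h5 ?_
    filter_upwards [hev] with Y hY
    exact mgx Dg Fr b X (fun _ _ => 0) (fA Dg) Y hY
  exact lm_diff h6 (suz hp hp2 hζ hz D L Fr Dg X b hb)

end H57.CC
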