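import Pool.Agent.H57.CC.Def
import Pool.Agent.H57.BRA.Def
import Pool.Agent.H57.CC.Zl
import Pool.Agent.H57.CC.M1
import Pool.Agent.H57.CC.Tau

/-!
# H57-CC-CM: the number of surjective homomorphisms to P of given local type (assembly, helper57)
-/

set_option autoImplicit false

open scoped NumberField
open IsDedekindDomain Filter Topology
open scoped Classical

noncomputable section

namespace H57.CC

open H57.CV H57.PC H57.LOW H63.MA H38.BB H38.BG H51.CUB H77.PT H77.PC3 H57.MP H57.BRA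

variable {K : Type} [Field K] [NumberField K] {p : ℕ} {ζ : K} {Ω : Type} [Field Ω]
  [Algebra K Ω] [IsAlgClosure K Ω] {m l w N k : ℕ} {P R : Type} [Group P] [Group R]

theorem cm_re {N : ℕ} {G : ℝ → ℝ} (h : Lm N fun Y => ((G Y : ℝ) : ℂ)) :
    ∃ L₀ : ℝ, Tendsto (fun Y : ℝ => G Y / (Y * Real.log Y ^ (N - 1))) atTop (𝓝 L₀) := by
  obtain ⟨a, ha⟩ := h
  refine ⟨a.re, ((Complex.continuous_re.tendsto a).comp ha).congr fun Y => ?_⟩
  show (((G Y : ℝ) : ℂ) / ((Y * Real.log Y ^ (N - 1) : ℝ) : ℂ)).re = _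
  rw [← Complex.ofReal_div, Complex.ofReal_re]

theorem cm_im {N : ℕ} {G : ℝ → ℝ} {L₀ : ℝ}
    (h : Tendsto (fun Y : ℝ => G Y / (Y * Real.log Y ^ (N - 1))) atTop (𝓝 L₀)) :
    Lm N fun Y => ((G Y : ℝ) : ℂ) := by
  refine ⟨(L₀ : ℂ), ((Complex.continuous_ofReal.tendsto L₀).comp h).congr fun Y => ?_⟩
  show ((G Y / (Y * Real.log Y ^ (N - 1)) : ℝ) : ℂ) = _
  rw [Complex.ofReal_div]

theorem cm_rho {m l w N : ℕ} {P R : Type} [Group P] [Group R] {K : Type} [Field K]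
    [NumberField K] {p : ℕ} {ζ : K} {D : RD0 K p ζ} {Ω : Type} [Field Ω] [Algebra K Ω]
    {L : LDs D Ω} (Dg : GP p m l w N P R) (Fr : FR L) (f : Fin N → Finset (Pl K))
    (ρ : Gal(Ω/K) →* R) :
    (((if ∀ i, ∀ v ∈ f i, cq Dg Fr ρ v = 0 then ∏ i, (Dg.Wn i : ℝ) ^ (f i).card else 0 : ℝ)) : ℂ) =
      ∏ i, ∏ v ∈ f i, fA Dg i (cq Dg Fr ρ v) := by
  by_cases h : ∀ i, ∀ v ∈ f i, cq Dg Fr ρ v = 0
  · rw [if_pos h, Complex.ofReal_prod]
    refine Finset.prod_congr rfl fun i _ => ?_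
    rw [Finset.prod_congr rfl fun v hv => show fA Dg i (cq Dg Fr ρ v) = (Dg.Wn i : ℂ) from by
      unfold fA
      rw [if_pos (h i v hv)], Finset.prod_const]
    push_cast
    rfl
  · rw [if_neg h, Complex.ofReal_zero]
    push Not at h
    obtain ⟨i, v, hv, hne⟩ := h
    symm
    refine Finset.prod_eq_zero (Finset.mem_univ i) (Finset.prod_eq_zero hv ?_)
    unfold fA
    rw [if_neg hne]

theorem cm_fwt [NeZero p] [Finite R] (hp : p.Prime) (hp2 : MOne p K)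
    (hζ : IsPrimitiveRoot ζ p) {D : RD0 K p ζ} (L : LDs D Ω) {Q : DP K Ω} (Fr : FR L)
    (Dg : GP p m l w N P R) (X : VP K Ω p l k R) (hX : X.Ok D Q) (b : Fin m → Kˣ)
    (ρ₁ : Gal(Ω/K) →* R) (h₁ : H38.ML.FT ρ₁) (hr : ∀ j, X.r j = ρ₁ (X.σ j))
    (f : Fin N → Finset (Pl K)) :
    ((FWT Q Dg Fr b ρ₁ f : ℝ) : ℂ) = ((p : ℂ) ^ (l * k))⁻¹ *
      ∑ η : Fin k → Fin l → ZMod p, FX Dg Fr b (X.wi η) (fA Dg) f := by
  unfold FWT RHS FX
  rw [Finset.sum_filter, Complex.ofReal_sum, Finset.sum_comm, Finset.mul_sum]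
  refine Finset.sum_congr rfl fun ρ hρ => ?_
  have hρ' : H38.ML.FT ρ := by
    unfold RHf at hρ
    split_ifs at hρ with hfin
    · exact ((Set.Finite.mem_toFinset hfin).1 hρ).1
    · exact absurd hρ (Finset.notMem_empty _)
  have h1 := vs_fou hp hp2 hζ L Dg X hX ρ ρ₁ hρ' h₁ hr
  rw [← Finset.sum_mul, ← mul_assoc, ← h1, ← cm_rho Dg Fr f ρ]
  by_cases ht : Teq D.S0 Q ρ ρ₁
  · rw [if_pos ht, if_pos ht, one_mul]
  · rw [if_neg ht, if_neg ht, zero_mul, Complex.ofReal_zero]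

theorem cm_b [NeZero p] [Finite P] [Finite R] (hp : p.Prime) (h2 : p ≠ 2)
    (hζ : IsPrimitiveRoot ζ p) (hz : Z2 p K) (D : RD K p ζ) (L : LDs D.toRD0 Ω) (Q : DP K Ω)
    (Fr : FR L) (Dg : GP p m l w N P R) (hN : 1 ≤ N)
    (ρ₁ : Gal(Ω/K) →* R) (h₁ : H38.ML.FT ρ₁) (b : Fin m → Kˣ) (hb : BS2 D.toRD0 b ∅) :
    Lm N fun Y => (((∑ f ∈ Fintype.piFinset (fun _ : Fin N => GF D.toRD0 Y),
      if Fa D.toRD0 Dg.cr b Y f then FWT Q Dg Fr b ρ₁ f else 0 : ℝ)) : ℂ) := by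
  have hp2 : MOne p K := mone_odd hp h2 K
  obtain ⟨k, σ, hk⟩ := vs_ex hp hp2 hζ D.toRD0 L Q R l
  let X : VP K Ω p l k R := ⟨σ, fun j => ρ₁ (σ j), 0⟩
  have hX : ∀ η, (X.wi η).Ok D.toRD0 Q := fun η => hk _ _
  have hz1 : ∀ η : Fin k → Fin l → ZMod p, Lm N fun Y =>
      ZX Dg Fr b (X.wi η) (fun _ _ => 0) (fA Dg) (fun _ => True) Y := fun η =>
    zl hp h2 hζ hz D L Q Fr Dg hN (X.wi η) (hX η) ρ₁ h₁ (fun j => rfl) b hb
  have hs : Lm N fun Y => (((∑ f ∈ (Fintype.piFinset (fun _ : Fin N =>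
      GF D.toRD0 (2 * Y))).filter (Fa D.toRD0 Dg.cr b (2 * Y)),
      FWT Q Dg Fr b ρ₁ f * wl ((∏ i, nr (f i)) / Y) : ℝ)) : ℂ) := by
    refine lm_congr (lm_mul ((p : ℂ) ^ (l * k))⁻¹ (lm_sum Finset.univ fun η _ => hz1 η))
      (Filter.Eventually.of_forall fun Y => ?_)
    unfold ZX
    rw [Finset.sum_filter, Complex.ofReal_sum, Finset.sum_comm, Finset.mul_sum]
    refine Finset.sum_congr rfl fun f _ => ?_
    by_cases hF : Fa D.toRD0 Dg.cr b (2 * Y) f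
    · have h0 : thp D.toRD0 Dg.cr b (fun (_ : Fin N) (_ : Fin m) => (0 : ZMod p)) f = 0 := by
        unfold thp dt
        simp
      rw [if_pos hF]
      simp only [if_pos (show Fa D.toRD0 Dg.cr b (2 * Y) f ∧ True from ⟨hF, trivial⟩), h0,
        ep_zero, mul_one]
      rw [Complex.ofReal_mul, cm_fwt hp hp2 hζ L Fr Dg X (hk _ _) b ρ₁ h₁ (fun j => rfl) f,
        ← Finset.mul_sum]
      ring
    · rw [if_neg hF]
      simp only [if_neg (show ¬ (Fa D.toRD0 Dg.cr b (2 * Y) f ∧ True) from fun h' => hF h'.1)]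
      rw [Finset.sum_const_zero, mul_zero, Complex.ofReal_zero]
  obtain ⟨L₀, hL₀⟩ := cm_re hs
  have ht := tau (n := fun f : Fin N → Finset (Pl K) => ∏ i, nr (f i))
    (c := fun f => FWT Q Dg Fr b ρ₁ f)
    (ok := fun f => Dj f ∧ SpR Dg.cr b f ∧ ∀ i, ∀ v ∈ f i, D.toRD0.Gd v) ?_ ?_
    (fun Y => (Fintype.piFinset (fun _ : Fin N => GF D.toRD0 Y)).filter (Fa D.toRD0 Dg.cr b Y))
    ?_ N L₀ hL₀
  · have h5 := cm_im ht
    refine lm_congr h5 (Filter.Eventually.of_forall fun Y => ?_)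
    rw [Finset.sum_filter]
  · intro f
    unfold FWT
    refine Finset.sum_nonneg fun ρ _ => ?_
    split_ifs
    · positivity
    · exact le_refl _
  · intro f
    exact atupa_prod_one f Finset.univ
  · intro Y f
    rw [Finset.mem_filter, Fintype.mem_piFinset]
    unfold Fa
    constructor
    · rintro ⟨h1, h3, h4, h5⟩
      exact ⟨⟨h3, h5, fun i => (aexp_mem_GF.1 (h1 i)).2⟩, h4⟩
    · rintro ⟨⟨h3, h5, h6⟩, h4⟩
      exact ⟨fun i => aexp_mem_GF.2 ⟨(atupa_le_prod f i).trans h4, h6 i⟩, h3, h4, h5⟩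

/-- the asymptotic number of surjective homomorphisms to `P` of given local type -/
theorem cm [NeZero p] [Finite P] [Finite R] (hp : p.Prime) (h2 : p ≠ 2)
    (hζ : IsPrimitiveRoot ζ p) (hz : Z2 p K) (D : RD K p ζ) (L : LDs D.toRD0 Ω) (Q : DP K Ω)
    (Fr : FR L) (Dg : GP p m l w N P R) (hN : 1 ≤ N) (hW : WTy Dg)
    (φ₁ : Gal(Ω/K) →* P) (h₁ : H38.ML.FT φ₁) :
    ∃ L₀ : ℝ, Tendsto (fun Y : ℝ => ((SY3 L Q Dg φ₁ Y).ncard : ℝ) /
      (Y * Real.log Y ^ (N - 1))) atTop (𝓝 L₀) := by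
  obtain ⟨Ub, hUb, hdec⟩ := sy3_dec hp h2 hζ D L Q Fr Dg
  obtain ⟨h₂, hh₂, hm⟩ := m1 hp h2 hζ hz D L Q Fr Dg hN hW φ₁ h₁
  have hft : H38.ML.FT (Dg.q.comp φ₁) := H38.ML.ft_comp Dg.q φ₁ h₁
  refine cm_re (G := fun Y => ((SY3 L Q Dg φ₁ Y).ncard : ℝ)) ?_
  have h5 : ∀ b ∈ Ub, Lm N fun Y =>
      (((∑ f ∈ Fintype.piFinset (fun _ : Fin N => GF D.toRD0 Y),
        if Fa D.toRD0 Dg.cr b Y f then ((FPT L Q Dg b f φ₁).ncard : ℝ) else 0 : ℝ)) : ℂ) := by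
    intro b hb
    have h6 := lm_mul ((h₂ : ℝ) : ℂ)
      (cm_b hp h2 hζ hz D L Q Fr Dg hN (Dg.q.comp φ₁) hft b (hUb b hb))
    refine lm_diff h6 ?_
    have h7 := hm b (hUb b hb)
    have e7 : ∀ Y : ℝ, ((((∑ f ∈ Fintype.piFinset (fun _ : Fin N => GF D.toRD0 Y),
        if Fa D.toRD0 Dg.cr b Y f then ((FPT L Q Dg b f φ₁).ncard : ℝ) else 0 : ℝ)) : ℂ) -
        ((h₂ : ℝ) : ℂ) * (((∑ f ∈ Fintype.piFinset (fun _ : Fin N => GF D.toRD0 Y),
        if Fa D.toRD0 Dg.cr b Y f then FWT Q Dg Fr b (Dg.q.comp φ₁) f else 0 : ℝ)) : ℂ)) =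
        (((∑ f ∈ Fintype.piFinset (fun _ : Fin N => GF D.toRD0 Y),
        if Fa D.toRD0 Dg.cr b Y f then ((FPT L Q Dg b f φ₁).ncard : ℝ) -
          h₂ * FWT Q Dg Fr b (Dg.q.comp φ₁) f else 0 : ℝ)) : ℂ) := by
      intro Y
      rw [← Complex.ofReal_mul, ← Complex.ofReal_sub, Finset.mul_sum, ← Finset.sum_sub_distrib]
      congr 1
      refine Finset.sum_congr rfl fun f _ => ?_
      by_cases hF : Fa D.toRD0 Dg.cr b Y f
      · rw [if_pos hF, if_pos hF, if_pos hF]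
      · rw [if_neg hF, if_neg hF, if_neg hF, mul_zero, sub_zero]
    simp only [e7]
    exact h7
  refine lm_congr (lm_sum Ub h5) (Filter.Eventually.of_forall fun Y => ?_)
  rw [(hdec φ₁ Y).2]
  push_cast
  refine Finset.sum_congr rfl fun b _ => Finset.sum_congr rfl fun f _ => ?_
  by_cases hF : Fa D.toRD0 Dg.cr b Y f
  · simp only [if_pos hF]
  · simp only [if_neg hF]

end H57.CC
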