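import Pool.Agent.H57.MP.Fo
import Pool.Agent.H57.MP.Def
import Pool.Agent.H57.PC.Def2
import Pool.Agent.H77.PC3.CDef
import Pool.Agent.H77.PC3.CTw
import Pool.Agent.H63.MC.CDef

/-!
# H57-CC-DEF: the asymptotic formula for class 3 (MP_b39724_nt), definitions

`p` odd, `P` of class `≤ 3`, all elements of order `p` typed. Text: think MP_b39724_nt, notes [H57-20], [H57-22]. `E = ∅` throughout; local data at `S0`: `Teq`.
* `WTy`: all nonzero elements of `W` are classes.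
* `VP`: finitely many elements `σ j` of `Γ` (virtual primes) with values `r j ∈ R` and functionals `η j` of `V`. `X.Ok D Q`: the `σ j` are in the decomposition groups at `S0` and
  detect the local triviality of characters. `X.ph`: the phase of `ρ : Γ → R`. `X.Tr`: the functional is trivial on all characters. `X.wi η`: other functionals.
* `RHS b f ρ₁`: the elements of `RHf` equal to `ρ₁` at `S0`. `FPT b f φ₁`: the homomorphisms `φ : Γ → P` with the data `b, f` and equal to `φ₁` at `S0`. `SY3 φ₁ Y`: the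
  surjective `φ : Γ → P` equal to `φ₁` at `S0` and typed outside `S0`.
* `FX`: the sum over `ρ ∈ RHf` of `X.ph ρ * ∏ φ i (cq ρ v)`. `thp θ`: the phase of level one. `ZX κ`: the smooth sum over the families `f` with `κ f`.
* `PCX`: the same for families with windows and weights depending on the window.
-/

set_option autoImplicit false

open scoped NumberField
open IsDedekindDomain
open scoped Classical

noncomputable section

namespace H57.CC

open H57.PC H57.LOW H63.MA H38.BB H38.BG H51.CUB H77.PT H77.PC3 H57.MP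

section grp

variable {p m l w N : ℕ} {P R : Type} [Group P] [Group R]

/-- every nonzero element of `W` is a class -/
def WTy (Dg : GP p m l w N P R) : Prop :=
  ∀ y : Fin w → ZMod p, y ≠ 0 → ∃ i, Dg.q (Dg.g i) = 1 ∧ ∀ k, Dg.cw k (Dg.g i) = y k

end grp

section loc

variable {K : Type} [Field K] [NumberField K] {p : ℕ} {ζ : K} {D : RD0 K p ζ} {Ω : Type}
  [Field Ω] [Algebra K Ω] {m l w N k : ℕ} {P R : Type} [Group P] [Group R]

/-- virtual primes -/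
structure VP (K Ω : Type) [Field K] [Field Ω] [Algebra K Ω] (p l k : ℕ) (R : Type) where
  σ : Fin k → Gal(Ω/K)
  r : Fin k → R
  η : Fin k → Fin l → ZMod p

/-- the elements `σ j` are in the decomposition groups at `S0` and detect the local triviality of characters -/
structure VP.Ok (X : VP K Ω p l k R) (D : RD0 K p ζ) (Q : DP K Ω) : Prop where
  mem : ∀ j, ∃ v ∈ D.S0, X.σ j ∈ dec (K := K) (Q.P v)
  det : ∀ c : Kˣ, (∀ j, kk p ζ c (X.σ j) = 0) →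
    ∀ v ∈ D.S0, ∀ σ ∈ dec (K := K) (Q.P v), kk p ζ c σ = 0

/-- the phase of the virtual primes -/
def VP.ph [NeZero p] (Dg : GP p m l w N P R) (X : VP K Ω p l k R) (ρ : Gal(Ω/K) →* R) : ℂ :=
  if ∀ j, Dg.π (ρ (X.σ j)) = Dg.π (X.r j) then
    ep p (∑ j, dt (X.η j) (fun c => Dg.cv c (ρ (X.σ j) * (X.r j)⁻¹))) else 0

/-- the functional is trivial on all characters -/
def VP.Tr (ζ : K) (X : VP K Ω p l k R) : Prop :=
  ∀ (y : Fin l → ZMod p) (c : Kˣ), ∑ j, dt (X.η j) y * kk p ζ c (X.σ j) = 0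

/-- other functionals -/
def VP.wi (X : VP K Ω p l k R) (η : Fin k → Fin l → ZMod p) : VP K Ω p l k R := ⟨X.σ, X.r, η⟩

/-- the elements of `RHf` equal to `ρ₁` at `S0` -/
def RHS [NeZero p] (L : LDs D Ω) (Q : DP K Ω) (Dg : GP p m l w N P R) (b : Fin m → Kˣ)
    (f : Fin N → Finset (Pl K)) (ρ₁ : Gal(Ω/K) →* R) : Finset (Gal(Ω/K) →* R) :=
  (RHf L Dg b ∅ (fun _ _ => 1) f).filter fun ρ => Teq D.S0 Q ρ ρ₁

/-- the classes of `P` -/
def clP (Dg : GP p m l w N P R) : CL p N P := ⟨Dg.g, Dg.pow, Dg.ne, Dg.uni⟩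

/-- the homomorphisms to `P` with given data and equal to `φ₁` at `S0` -/
def FPT [NeZero p] (L : LDs D Ω) (Q : DP K Ω) (Dg : GP p m l w N P R) (b : Fin m → Kˣ)
    (f : Fin N → Finset (Pl K)) (φ₁ : Gal(Ω/K) →* P) : Set (Gal(Ω/K) →* P) :=
  {φ | H38.ML.FT φ ∧ Dg.q.comp φ ∈ RHS L Q Dg b f (Dg.q.comp φ₁) ∧ Teq D.S0 Q φ φ₁ ∧
    (∀ i, ∀ v ∈ f i, TyC (clP Dg) L φ i v) ∧
    ∀ v, v ∉ D.S0 → (∀ i, v ∉ f i) → ∀ τ ∈ inr L v, φ τ = 1}

/-- the surjective homomorphisms to `P` equal to `φ₁` at `S0`, typed outside `S0`, with the primes of norm product at most `Y` -/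
def SY3 [NeZero p] (L : LDs D Ω) (Q : DP K Ω) (Dg : GP p m l w N P R) (φ₁ : Gal(Ω/K) →* P)
    (Y : ℝ) : Set (Gal(Ω/K) →* P) :=
  {φ | H38.ML.FT φ ∧ Function.Surjective φ ∧ Teq D.S0 Q φ φ₁ ∧
    (∀ v, v ∉ D.S0 → (∀ τ ∈ inr L v, φ τ = 1) ∨ ∃ i, TyC (clP Dg) L φ i v) ∧
    ∀ T : Finset (Pl K), (∀ v ∈ T, v ∉ D.S0 ∧ ¬ ∀ τ ∈ inr L v, φ τ = 1) →
      ∏ v ∈ T, (nm v : ℝ) ≤ Y}

/-- the sum over `ρ` with the phase of the virtual primes -/
def FX [NeZero p] {L : LDs D Ω} (Dg : GP p m l w N P R) (Fr : FR L) (b : Fin m → Kˣ)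
    (X : VP K Ω p l k R) (φ : Fin N → (Fin w → ZMod p) → ℂ) (f : Fin N → Finset (Pl K)) : ℂ :=
  ∑ ρ ∈ RHf L Dg b ∅ (fun _ _ => 1) f, X.ph Dg ρ * ∏ i, ∏ v ∈ f i, φ i (cq Dg Fr ρ v)

/-- the number of `ρ` equal to `ρ₁` at `S0` which lift locally, with weights -/
def FWT [NeZero p] {L : LDs D Ω} (Q : DP K Ω) (Dg : GP p m l w N P R) (Fr : FR L)
    (b : Fin m → Kˣ) (ρ₁ : Gal(Ω/K) →* R) (f : Fin N → Finset (Pl K)) : ℝ :=
  ∑ ρ ∈ RHS L Q Dg b f ρ₁,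
    if ∀ i, ∀ v ∈ f i, cq Dg Fr ρ v = 0 then ∏ i, (Dg.Wn i : ℝ) ^ (f i).card else 0

/-- the phase of level one -/
def thp (D : RD0 K p ζ) (c : CR p m N) (b : Fin m → Kˣ) (θ : Fin N → Fin m → ZMod p)
    (f : Fin N → Finset (Pl K)) : ZMod p :=
  ∑ i, ∑ v ∈ f i, dt (θ i) (fun k => D.LL v (akR D c b f k))

/-- the families with spanning condition -/
def Fa (_D : RD0 K p ζ) (c : CR p m N) (b : Fin m → Kˣ) (Y : ℝ) (f : Fin N → Finset (Pl K)) :
    Prop :=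
  Dj f ∧ ∏ i, nr (f i) ≤ Y ∧ SpR c b f

/-- the smooth sum over the families `f` with `κ f` -/
def ZX [NeZero p] {L : LDs D Ω} (Dg : GP p m l w N P R) (Fr : FR L) (b : Fin m → Kˣ)
    (X : VP K Ω p l k R) (θ : Fin N → Fin m → ZMod p) (φ : Fin N → (Fin w → ZMod p) → ℂ)
    (κ : (Fin N → Finset (Pl K)) → Prop) (Y : ℝ) : ℂ :=
  ∑ f ∈ Fintype.piFinset (fun _ : Fin N => GF D (2 * Y)),
    if Fa D Dg.cr b (2 * Y) f ∧ κ f then
      ((wl ((∏ i, nr (f i)) / Y) : ℝ) : ℂ) * FX Dg Fr b X φ f * ep p (thp D Dg.cr b θ f) else 0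

/-- the smooth sum over the families with the windows `UM`, all classes large -/
def PCX [NeZero p] {L : LDs D Ω} (Dg : GP p m l w N P R) (Fr : FR L) (b : Fin m → Kˣ)
    (X : VP K Ω p l k R) (θ : Fin N → Fin m → ZMod p)
    (φ : Fin N × Fin 3 → (Fin w → ZMod p) → ℂ) (Y : ℝ) : ℂ :=
  ∑ h ∈ Fintype.piFinset (fun _ : Fin N × Fin 3 => GF D (2 * Y)),
    if Wc D (UM N Y) ∅ Y h ∧ SpR Dg.cr b (clw (UM N Y) h) then
      ((omL (spt h) : ℝ) : ℂ) * ((wl ((∏ a, nr (h a)) / Y) : ℝ) : ℂ) *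
        (∑ ρ ∈ RHf L Dg b ∅ (fun _ _ => 1) (clw (UM N Y) h),
          X.ph Dg ρ * ∏ a, ∏ v ∈ h a, φ a (cq Dg Fr ρ v)) *
        ep p (thp D Dg.cr b θ (clw (UM N Y) h))
    else 0

/-- negligible -/
def Neg (N : ℕ) (F : ℝ → ℂ) : Prop :=
  ∀ ε : ℝ, 0 < ε → ∃ Y₀ : ℝ, 3 ≤ Y₀ ∧ ∀ Y : ℝ, Y₀ ≤ Y → ‖F Y‖ ≤ ε * Y * Real.log Y ^ (N - 1)

end loc

end H57.CC
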